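import Pool.Agent.H161R2.KissWyner

/-!
# Spherical codes with inner products at most `s`: basic facts
-/

set_option autoImplicit false

open Finset Filter MeasureTheory Metric

namespace Pool.Agent.E8helper70.Sph

open Pool.Agent.H818R2 (IsSphCode sphMax sph_nonempty sph_bdd sphMax_le rho_le_one le_sphMax vol_closedBall vb vb_pos)
open Pool.Agent.H161R2.KissSym (card_le_sub sphMax_mono sphMax_zero)

/-- `C` is a spherical code of `ℝⁿ` with inner products at most `s` -/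
def IsCode (n : ℕ) (s : ℝ) (C : Finset (EuclideanSpace ℝ (Fin n))) : Prop :=
  (∀ x ∈ C, ‖x‖ = 1) ∧ ∀ x ∈ C, ∀ y ∈ C, x ≠ y → inner ℝ x y ≤ s

/-- the largest size of such a code -/
noncomputable def A (n : ℕ) (s : ℝ) : ℕ :=
  sSup {k | ∃ C : Finset (EuclideanSpace ℝ (Fin n)), IsCode n s C ∧ C.card = k}

lemma isCode_iff {n : ℕ} {s : ℝ} (h0 : 0 ≤ s) (h1 : s < 1) (C : Finset (EuclideanSpace ℝ (Fin n))) :
    IsCode n s C ↔ IsSphCode n (Real.arccos s) C := by
  unfold IsCode IsSphCode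
  rw [Real.cos_arccos (by linarith) h1.le]

lemma A_eq (n : ℕ) {s : ℝ} (h0 : 0 ≤ s) (h1 : s < 1) : A n s = sphMax n (Real.arccos s) := by
  unfold A sphMax
  simp only [isCode_iff h0 h1]

lemma sin_pos {s : ℝ} (h1 : s < 1) : 0 < Real.sin (Real.arccos s / 2) := by
  have h2 : 0 < Real.arccos s := Real.arccos_pos.2 h1
  have h3 := Real.arccos_le_pi s
  exact Real.sin_pos_of_pos_of_lt_pi (by linarith) (by linarith [Real.pi_pos])

/-- a code in a subspace -/
lemma card_sub {n : ℕ} {s : ℝ} (h0 : 0 ≤ s) (h1 : s < 1) {C : Finset (EuclideanSpace ℝ (Fin n))}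
    (hC : IsCode n s C) (W : Submodule ℝ (EuclideanSpace ℝ (Fin n))) (hW : ∀ x ∈ C, x ∈ W) :
    C.card ≤ A (Module.finrank ℝ W) s := by
  rw [A_eq _ h0 h1]
  exact card_le_sub (sin_pos h1) W ((isCode_iff h0 h1 C).1 hC) hW

lemma le_A {n : ℕ} {s : ℝ} (h0 : 0 ≤ s) (h1 : s < 1) {C : Finset (EuclideanSpace ℝ (Fin n))}
    (hC : IsCode n s C) : C.card ≤ A n s := by
  have h := card_sub h0 h1 hC ⊤ (fun x _ => Submodule.mem_top)
  rwa [finrank_top, finrank_euclideanSpace_fin] at h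

lemma bdd (n : ℕ) {s : ℝ} (h0 : 0 ≤ s) (h1 : s < 1) :
    BddAbove {k | ∃ C : Finset (EuclideanSpace ℝ (Fin n)), IsCode n s C ∧ C.card = k} := by
  refine ⟨A n s, ?_⟩
  rintro k ⟨C, hC, rfl⟩
  exact le_A h0 h1 hC

lemma isCode_empty (n : ℕ) (s : ℝ) : IsCode n s ∅ := ⟨by simp, by simp⟩

lemma exists_max (n : ℕ) {s : ℝ} (h0 : 0 ≤ s) (h1 : s < 1) :
    ∃ C : Finset (EuclideanSpace ℝ (Fin n)), IsCode n s C ∧ C.card = A n s := by
  have hne : {k | ∃ C : Finset (EuclideanSpace ℝ (Fin n)), IsCode n s C ∧ C.card = k}.Nonempty :=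
    ⟨0, ∅, isCode_empty n s, card_empty⟩
  exact Nat.sSup_mem hne (bdd n h0 h1)

lemma IsCode.mono_s {n : ℕ} {s t : ℝ} (h : s ≤ t) {C : Finset (EuclideanSpace ℝ (Fin n))} (hC : IsCode n s C) :
    IsCode n t C := ⟨hC.1, fun x hx y hy hxy => (hC.2 x hx y hy hxy).trans h⟩

lemma IsCode.sub {n : ℕ} {s : ℝ} {C D : Finset (EuclideanSpace ℝ (Fin n))} (hC : IsCode n s C) (h : D ⊆ C) :
    IsCode n s D := ⟨fun x hx => hC.1 x (h hx), fun x hx y hy hxy => hC.2 x (h hx) y (h hy) hxy⟩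

lemma A_mono_s (n : ℕ) {s t : ℝ} (h0 : 0 ≤ s) (h : s ≤ t) (h1 : t < 1) : A n s ≤ A n t := by
  obtain ⟨C, hC, hc⟩ := exists_max n h0 (h.trans_lt h1)
  rw [← hc]
  exact le_A (h0.trans h) h1 (hC.mono_s h)

lemma A_mono_n {m n : ℕ} (h : m ≤ n) {s : ℝ} (h0 : 0 ≤ s) (h1 : s < 1) : A m s ≤ A n s := by
  rw [A_eq _ h0 h1, A_eq _ h0 h1]
  exact sphMax_mono (sin_pos h1) h

lemma A_pos {n : ℕ} (hn : 1 ≤ n) {s : ℝ} (h0 : 0 ≤ s) (h1 : s < 1) : 1 ≤ A n s := by
  classical
  have h : IsCode n s {EuclideanSpace.single (⟨0, hn⟩ : Fin n) (1 : ℝ)} := by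
    refine ⟨?_, ?_⟩
    · intro x hx
      rw [mem_singleton.1 hx]
      simp
    · intro x hx y hy hxy
      exact absurd ((mem_singleton.1 hx).trans (mem_singleton.1 hy).symm) hxy
  have := le_A h0 h1 h
  rwa [card_singleton] at this

lemma A_zero {s : ℝ} (h0 : 0 ≤ s) (h1 : s < 1) : A 0 s = 0 := by
  rw [A_eq _ h0 h1, sphMax_zero]

/-- the base of the volume bound -/
noncomputable def Kb (s : ℝ) : ℝ := (1 + 2 * Real.sin (Real.arccos s / 2)) / Real.sin (Real.arccos s / 2)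

lemma one_le_Kb {s : ℝ} (h1 : s < 1) : 1 ≤ Kb s := by
  unfold Kb
  have h := sin_pos h1
  rw [le_div_iff₀ h]
  linarith

lemma A_le_pow (n : ℕ) {s : ℝ} (h0 : 0 ≤ s) (h1 : s < 1) : (A n s : ℝ) ≤ Kb s ^ n := by
  rcases Nat.eq_zero_or_pos n with h | h
  · subst h
    rw [A_zero h0 h1]
    simp
  · have : NeZero n := ⟨h.ne'⟩
    rw [A_eq _ h0 h1]
    have h2 := sphMax_le (d := n) (sin_pos h1)
    refine h2.trans ?_
    have h3 := rho_le_one n
    have h4 : 0 ≤ ((1 + 2 * Real.sin (Real.arccos s / 2)) / Real.sin (Real.arccos s / 2)) ^ n := by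
      have := one_le_Kb h1
      unfold Kb at this
      positivity
    unfold Kb
    nlinarith

/-- Wyner's bound for `0 < s ≤ 1 / 2` -/
theorem wyner_small (n : ℕ) (hn : 1 ≤ n) {s : ℝ} (h0 : 0 ≤ s) (h1 : s ≤ 1 / 2) :
    1 ≤ (A n s : ℝ) * √(1 - s ^ 2) ^ n := by
  classical
  have : NeZero n := ⟨by omega⟩
  have hs1 : s < 1 := by linarith
  obtain ⟨P, hP, hPc⟩ := exists_max n h0 hs1
  -- every unit vector is close to a code point
  have hcl : ∀ u : EuclideanSpace ℝ (Fin n), ‖u‖ = 1 → ∃ p ∈ P, s ≤ inner ℝ u p := by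
    intro u hu
    by_contra hcon
    push Not at hcon
    have hnot : u ∉ P := by
      intro h
      have := hcon u h
      rw [real_inner_self_eq_norm_sq, hu] at this
      linarith
    have hcode : IsCode n s (insert u P) := by
      constructor
      · intro x hx
        rcases Finset.mem_insert.1 hx with rfl | hx
        · exact hu
        · exact hP.1 x hx
      · intro x hx y hy hxy
        rcases Finset.mem_insert.1 hx with h | hx
        · rcases Finset.mem_insert.1 hy with h' | hy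
          · exact absurd (h.trans h'.symm) hxy
          · rw [h]; exact (hcon y hy).le
        · rcases Finset.mem_insert.1 hy with h' | hy
          · rw [h', real_inner_comm]; exact (hcon x hx).le
          · exact hP.2 x hx y hy hxy
    have h1 := le_A h0 hs1 hcode
    rw [Finset.card_insert_of_notMem hnot, hPc] at h1
    omega
  set r := √(1 - s ^ 2) with hr
  have hr0 : 0 < 1 - s ^ 2 := by nlinarith
  have hrp : 0 < r := Real.sqrt_pos.2 hr0
  have h3 : r ^ 2 = 1 - s ^ 2 := Real.sq_sqrt hr0.le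
  have hcov : closedBall (0 : EuclideanSpace ℝ (Fin n)) 1 ⊆
      ⋃ p ∈ P, closedBall (s • p) r := by
    intro x hx
    rw [mem_closedBall_zero_iff] at hx
    obtain ⟨u, hu, hxu⟩ : ∃ u : EuclideanSpace ℝ (Fin n), ‖u‖ = 1 ∧ x = ‖x‖ • u := by
      rcases eq_or_ne x 0 with h | h
      · have : Nontrivial (EuclideanSpace ℝ (Fin n)) := by
          have : Nonempty (Fin n) := ⟨⟨0, hn⟩⟩
          infer_instance
        obtain ⟨u, hu⟩ := exists_norm_eq (EuclideanSpace ℝ (Fin n)) (zero_le_one)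
        exact ⟨u, hu, by rw [h, norm_zero, zero_smul]⟩
      · have hx0 : ‖x‖ ≠ 0 := norm_ne_zero_iff.2 h
        refine ⟨‖x‖⁻¹ • x, ?_, ?_⟩
        · rw [norm_smul, norm_inv, norm_norm, inv_mul_cancel₀ hx0]
        · rw [smul_smul, mul_inv_cancel₀ hx0, one_smul]
    obtain ⟨p, hp, hup⟩ := hcl u hu
    simp only [Set.mem_iUnion]
    refine ⟨p, hp, ?_⟩
    rw [mem_closedBall, dist_eq_norm]
    apply le_of_sq_le_sq _ hrp.le
    rw [norm_sub_sq_real, h3, inner_smul_right, norm_smul, hP.1 p hp]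
    have h4 : inner ℝ x p = ‖x‖ * inner ℝ u p := by
      conv_lhs => rw [hxu]
      rw [inner_smul_left]
      simp
    rw [h4]
    have h5 : ‖x‖ * s ≤ ‖x‖ * inner ℝ u p := mul_le_mul_of_nonneg_left hup (norm_nonneg _)
    have h6 := norm_nonneg x
    rw [Real.norm_of_nonneg h0]
    have h7 : s * (‖x‖ * s) ≤ s * (‖x‖ * inner ℝ u p) := mul_le_mul_of_nonneg_left h5 h0
    have h8 : (1 - ‖x‖) * (1 - 2 * s ^ 2 + ‖x‖) ≥ 0 := by
      apply mul_nonneg (by linarith)
      nlinarith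
    nlinarith
  have hm : volume.real (closedBall (0 : EuclideanSpace ℝ (Fin n)) 1) ≤
      ∑ p ∈ P, volume.real (closedBall (s • p) r) := by
    refine (measureReal_mono hcov ?_).trans (measureReal_biUnion_finset_le _ _)
    exact ((measure_biUnion_lt_top P.finite_toSet
      (fun p _ => measure_closedBall_lt_top)).ne)
  rw [vol_closedBall _ (by norm_num)] at hm
  have h7 : ∀ p ∈ P, volume.real (closedBall (s • p) r) =
      r ^ n * vb (EuclideanSpace ℝ (Fin n)) := by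
    intro p _
    rw [vol_closedBall _ hrp.le, finrank_euclideanSpace_fin]
  rw [Finset.sum_congr rfl h7, Finset.sum_const, nsmul_eq_mul, one_pow, one_mul, hPc] at hm
  have hv := vb_pos (E := EuclideanSpace ℝ (Fin n))
  have h8 : 1 * vb (EuclideanSpace ℝ (Fin n)) ≤
      ((A n s : ℝ) * r ^ n) * vb (EuclideanSpace ℝ (Fin n)) := by
    rw [one_mul, mul_assoc]; exact hm
  exact le_of_mul_le_mul_right h8 hv

/-- exponential growth -/
theorem exists_growth {s : ℝ} (h0 : 0 < s) (h1 : s < 1) : ∃ g : ℝ, 1 < g ∧ ∀ n : ℕ, 1 ≤ n → g ^ n ≤ A n s := by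
  set t := min s (1 / 2) with ht
  have ht0 : 0 < t := lt_min h0 (by norm_num)
  have ht1 : t ≤ 1 / 2 := min_le_right _ _
  have hr0 : 0 < 1 - t ^ 2 := by nlinarith
  have hrp : 0 < √(1 - t ^ 2) := Real.sqrt_pos.2 hr0
  have hr1 : √(1 - t ^ 2) < 1 := by
    rw [Real.sqrt_lt' one_pos]
    nlinarith
  refine ⟨(√(1 - t ^ 2))⁻¹, (one_lt_inv₀ hrp).2 hr1, fun n hn => ?_⟩
  have h2 := wyner_small n hn ht0.le ht1
  have h3 : (A n t : ℝ) ≤ A n s := by exact_mod_cast A_mono_s n ht0.le (min_le_left _ _) h1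
  refine le_trans ?_ h3
  rw [inv_pow, inv_le_iff_one_le_mul₀ (by positivity)]
  exact h2

end Pool.Agent.E8helper70.Sph
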