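import Pool.Agent.E8helper70.Sph.Proj

/-!
# Points of a spherical code with large projection to a subspace
-/

set_option autoImplicit false

open Finset

namespace Pool.Agent.E8helper70.Sph

variable {n : ℕ}

/-- the numerical inequality -/
lemma num_ineq {t a a' : ℝ} (ht0 : 0 ≤ t) (ht1 : t < 1) (ha : 0 < a) (haa : a ≤ a') :
    t - a' * (1 - 4 * ((1 - t) / 10)) ≤
      (t - (1 - t) * a / 2) * (1 - (a' + a * ((1 - t) / 10))) := by
  have h1 : 0 < 1 - t := by linarith
  have h2 : 0 ≤ (a' - a) * (1 - t) := mul_nonneg (by linarith) h1.le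
  have h3 : 0 ≤ (1 - t) * a := by positivity
  have h4 : 0 ≤ (a' - a) * ((1 - t) * a) := mul_nonneg (by linarith) h3
  have h5 : 0 ≤ (1 - t) * a * (1 - t) := by positivity
  nlinarith [mul_nonneg h3 ha.le, mul_nonneg (mul_nonneg h3 ha.le) h1.le]

/-- inner product of two unit vectors close to a third one -/
lemma inner_close {u v w : EuclideanSpace ℝ (Fin n)} {ρ : ℝ} (hu : ‖u‖ = 1) (hv : ‖v‖ = 1) (hw : ‖w‖ = 1)
    (h1 : 1 - ρ ≤ inner ℝ u w) (h2 : 1 - ρ ≤ inner ℝ v w) : 1 - 4 * ρ ≤ inner ℝ u v := by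
  have e1 : ‖u - w‖ ^ 2 ≤ 2 * ρ := by
    rw [norm_sub_sq_real, hu, hw]; linarith
  have e2 : ‖v - w‖ ^ 2 ≤ 2 * ρ := by
    rw [norm_sub_sq_real, hv, hw]; linarith
  have e3 : ‖u - v‖ ≤ ‖u - w‖ + ‖v - w‖ := by
    have : u - v = (u - w) - (v - w) := by abel
    rw [this]
    exact norm_sub_le _ _
  have e4 : ‖u - v‖ ^ 2 = 2 - 2 * inner ℝ u v := by
    rw [norm_sub_sq_real, hu, hv]; ring
  have e5 : ‖u - v‖ ^ 2 ≤ (‖u - w‖ + ‖v - w‖) ^ 2 := by
    apply pow_le_pow_left₀ (norm_nonneg _) e3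
  nlinarith [sq_nonneg (‖u - w‖ - ‖v - w‖)]

/-- one cluster -/
lemma cluster_card {t a a' : ℝ} (ht0 : 0 ≤ t) (ht1 : t < 1) (ha : 0 < a) (haa : a ≤ a')
    (hτ : 0 ≤ t - (1 - t) * a / 2) {C : Finset (EuclideanSpace ℝ (Fin n))} (hC : IsCode n t C)
    (V : Submodule ℝ (EuclideanSpace ℝ (Fin n))) (hV : Module.finrank ℝ V < n)
    (w : EuclideanSpace ℝ (Fin n)) (hw : ‖w‖ = 1) (E : Finset (EuclideanSpace ℝ (Fin n))) (hE : E ⊆ C)
    (h1 : ∀ x ∈ E, a' ≤ ‖V.starProjection x‖ ^ 2)
    (h2 : ∀ x ∈ E, ‖V.starProjection x‖ ^ 2 ≤ a' + a * ((1 - t) / 10))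
    (h3 : ∀ x ∈ E, 1 - (1 - t) / 10 ≤ inner ℝ (‖V.starProjection x‖⁻¹ • V.starProjection x) w) :
    E.card ≤ A (n - Module.finrank ℝ V) (t - (1 - t) * a / 2) := by
  have hτ1 : t - (1 - t) * a / 2 < 1 := by
    have : 0 ≤ (1 - t) * a := mul_nonneg (by linarith) ha.le
    linarith
  have hq : ∀ x ∈ E, 0 < ‖V.starProjection x‖ := by
    intro x hx
    have := h1 x hx
    by_contra hcon
    have h0 : ‖V.starProjection x‖ = 0 := le_antisymm (not_lt.1 hcon) (norm_nonneg _)
    rw [h0] at this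
    norm_num at this
    linarith
  have hun : ∀ x ∈ E, ‖(‖V.starProjection x‖⁻¹ • V.starProjection x)‖ = 1 := by
    intro x hx
    rw [norm_smul, norm_inv, norm_norm, inv_mul_cancel₀ (hq x hx).ne']
  have hin : ∀ x ∈ E, ∀ y ∈ E, a' * (1 - 4 * ((1 - t) / 10)) ≤
      inner ℝ (V.starProjection x) (V.starProjection y) := by
    intro x hx y hy
    have e1 := inner_close (hun x hx) (hun y hy) hw (h3 x hx) (h3 y hy)
    rw [inner_smul_left, inner_smul_right] at e1
    simp only [RCLike.conj_to_real] at e1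
    have hx0 := hq x hx
    have hy0 := hq y hy
    have e2 : a' ≤ ‖V.starProjection x‖ * ‖V.starProjection y‖ := by
      have e3 : a' ^ 2 ≤ (‖V.starProjection x‖ * ‖V.starProjection y‖) ^ 2 := by
        rw [mul_pow, sq a']
        exact mul_le_mul (h1 x hx) (h1 y hy) (by linarith) (sq_nonneg _)
      exact le_of_sq_le_sq e3 (by positivity)
    have e4 : (‖V.starProjection x‖ * ‖V.starProjection y‖) * (1 - 4 * ((1 - t) / 10)) ≤
        inner ℝ (V.starProjection x) (V.starProjection y) := by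
      have e5 := mul_le_mul_of_nonneg_left e1 (mul_pos hx0 hy0).le
      refine e5.trans (le_of_eq ?_)
      field_simp
    have e6 : 0 ≤ 1 - 4 * ((1 - t) / 10) := by linarith
    exact (mul_le_mul_of_nonneg_right e2 e6).trans e4
  have hPin : ∀ x ∈ E, ∀ y ∈ E, x ≠ y → inner ℝ (Vᗮ.starProjection x) (Vᗮ.starProjection y) ≤
      t - a' * (1 - 4 * ((1 - t) / 10)) := by
    intro x hx y hy hxy
    have e1 := inner_split V x y
    have e2 := hC.2 x (hE hx) y (hE hy) hxy
    have e3 := hin x hx y hy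
    linarith
  rcases Nat.lt_or_ge 1 E.card with hcard | hcard
  · apply card_of_proj hτ hτ1 V E
    · intro x hx h
      obtain ⟨y, hy, hyx⟩ := exists_mem_ne hcard x
      have e1 := hPin x hx y hy (Ne.symm hyx)
      rw [h, inner_zero_left] at e1
      have e2 := norm_split V x
      rw [hC.1 x (hE hx), h, norm_zero] at e2
      have e3 := h2 x hx
      have e4 := h1 x hx
      have e5 : a ≤ 1 := by linarith
      have e6 : a * ((1 - t) / 10) ≤ (1 - t) / 10 := by
        have : 0 ≤ (1 - t) / 10 := by linarith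
        nlinarith
      have e7 : 1 - (1 - t) / 10 ≤ a' := by linarith
      have e8 : (1 - (1 - t) / 10) * (1 - 4 * ((1 - t) / 10)) ≤ a' * (1 - 4 * ((1 - t) / 10)) :=
        mul_le_mul_of_nonneg_right e7 (by linarith)
      nlinarith [sq_nonneg (1 - t)]
    · intro x hx y hy hxy
      refine (hPin x hx y hy hxy).trans ((num_ineq ht0 ht1 ha haa).trans ?_)
      apply mul_le_mul_of_nonneg_left _ hτ
      rcases le_or_gt 0 (1 - (a' + a * ((1 - t) / 10))) with hb | hb
      · have e1 : ∀ z ∈ E, 1 - (a' + a * ((1 - t) / 10)) ≤ ‖Vᗮ.starProjection z‖ ^ 2 := by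
          intro z hz
          have := norm_split V z
          rw [hC.1 z (hE hz)] at this
          have := h2 z hz
          linarith
        have e3 : (1 - (a' + a * ((1 - t) / 10))) ^ 2 ≤ (‖Vᗮ.starProjection x‖ * ‖Vᗮ.starProjection y‖) ^ 2 := by
          rw [mul_pow, sq (1 - (a' + a * ((1 - t) / 10)))]
          exact mul_le_mul (e1 x hx) (e1 y hy) hb (sq_nonneg _)
        exact le_of_sq_le_sq e3 (by positivity)
      · exact hb.le.trans (by positivity)
  · exact hcard.trans (A_pos (by omega) hτ hτ1)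

open Classical in
/-- centres of clusters -/
lemma exists_centres (V : Submodule ℝ (EuclideanSpace ℝ (Fin n))) {s : ℝ} (h0 : 0 ≤ s) (h1 : s < 1)
    (F : Finset (EuclideanSpace ℝ (Fin n))) (hF : ∀ x ∈ F, ‖x‖ = 1 ∧ x ∈ V) :
    ∃ U : Finset (EuclideanSpace ℝ (Fin n)), U.card ≤ A (Module.finrank ℝ V) s ∧ (∀ w ∈ U, ‖w‖ = 1) ∧
      ∀ x ∈ F, ∃ w ∈ U, s ≤ inner ℝ x w := by
  obtain ⟨U, hU, hmax⟩ := exists_max_image (F.powerset.filter (fun U => IsCode n s U)) Finset.card
    ⟨∅, by rw [mem_filter]; exact ⟨by simp, isCode_empty n s⟩⟩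
  rw [mem_filter, mem_powerset] at hU
  refine ⟨U, card_sub h0 h1 hU.2 V (fun x hx => (hF x (hU.1 hx)).2), hU.2.1, ?_⟩
  intro x hx
  by_contra hcon
  push Not at hcon
  have hxU : x ∉ U := by
    intro h
    have := hcon x h
    rw [real_inner_self_eq_norm_sq, (hF x hx).1] at this
    linarith
  have hcode : IsCode n s (insert x U) := by
    constructor
    · intro y hy
      rcases mem_insert.1 hy with rfl | hy
      · exact (hF _ hx).1
      · exact hU.2.1 y hy
    · intro y hy z hz hyz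
      rcases mem_insert.1 hy with h | hy
      · rcases mem_insert.1 hz with h' | hz
        · exact absurd (h.trans h'.symm) hyz
        · rw [h]; exact (hcon z hz).le
      · rcases mem_insert.1 hz with h' | hz
        · rw [h', real_inner_comm]; exact (hcon y hy).le
        · exact hU.2.2 y hy z hz hyz
  have h2 := hmax (insert x U) (by
    rw [mem_filter, mem_powerset]
    exact ⟨insert_subset hx hU.1, hcode⟩)
  rw [card_insert_of_notMem hxU] at h2
  omega

open Classical in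
/-- points with large projection to `V` -/
theorem card_large {t a : ℝ} (ht0 : 0 ≤ t) (ht1 : t < 1) (ha : 0 < a)
    (hτ : 0 ≤ t - (1 - t) * a / 2) {C : Finset (EuclideanSpace ℝ (Fin n))} (hC : IsCode n t C)
    (V : Submodule ℝ (EuclideanSpace ℝ (Fin n))) (hV : Module.finrank ℝ V < n)
    (D : Finset (EuclideanSpace ℝ (Fin n))) (hD : D ⊆ C) (hDa : ∀ x ∈ D, a ≤ ‖V.starProjection x‖ ^ 2) :
    D.card ≤ A (Module.finrank ℝ V) (1 - (1 - t) / 10) * (⌊1 / (a * ((1 - t) / 10))⌋₊ + 1) *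
      A (n - Module.finrank ℝ V) (t - (1 - t) * a / 2) := by
  have hg0 : 0 < a * ((1 - t) / 10) := by
    have : 0 < 1 - t := by linarith
    positivity
  set g := a * ((1 - t) / 10) with hg
  set uf : EuclideanSpace ℝ (Fin n) → EuclideanSpace ℝ (Fin n) :=
    fun x => ‖V.starProjection x‖⁻¹ • V.starProjection x with huf
  have hq : ∀ x ∈ D, 0 < ‖V.starProjection x‖ := by
    intro x hx
    have := hDa x hx
    by_contra hcon
    have h0 : ‖V.starProjection x‖ = 0 := le_antisymm (not_lt.1 hcon) (norm_nonneg _)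
    rw [h0] at this
    norm_num at this
    linarith
  obtain ⟨U, hUc, hU1, hU⟩ := exists_centres V (s := 1 - (1 - t) / 10) (by linarith) (by linarith) (D.image uf) (by
    intro y hy
    obtain ⟨x, hx, rfl⟩ := mem_image.1 hy
    refine ⟨?_, Submodule.smul_mem _ _ (Submodule.starProjection_apply_mem _ _)⟩
    rw [huf]
    simp only
    rw [norm_smul, norm_inv, norm_norm, inv_mul_cancel₀ (hq x hx).ne'])
  have hch : ∀ x ∈ D, ∃ w ∈ U, 1 - (1 - t) / 10 ≤ inner ℝ (uf x) w := fun x hx =>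
    hU _ (mem_image_of_mem _ hx)
  choose! wf hwf1 hwf2 using hch
  set jf : EuclideanSpace ℝ (Fin n) → ℕ := fun x => ⌊‖V.starProjection x‖ ^ 2 / g⌋₊ with hjf
  have hmap : ∀ x ∈ D, (wf x, jf x) ∈ U ×ˢ range (⌊1 / g⌋₊ + 1) := by
    intro x hx
    rw [mem_product, mem_range, Nat.lt_succ_iff]
    refine ⟨hwf1 x hx, Nat.floor_le_floor ?_⟩
    rw [div_le_div_iff_of_pos_right hg0]
    have e1 := norm_split V x
    rw [hC.1 x (hD hx)] at e1
    nlinarith [sq_nonneg ‖Vᗮ.starProjection x‖]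
  have hfib : ∀ z ∈ U ×ˢ range (⌊1 / g⌋₊ + 1), (D.filter (fun x => (wf x, jf x) = z)).card ≤
      A (n - Module.finrank ℝ V) (t - (1 - t) * a / 2) := by
    intro z hz
    obtain ⟨w, j⟩ := z
    rw [mem_product] at hz
    have hmem : ∀ x ∈ D.filter (fun x => (wf x, jf x) = (w, j)), x ∈ D ∧ wf x = w ∧ jf x = j := by
      intro x hx
      rw [mem_filter, Prod.mk.injEq] at hx
      exact ⟨hx.1, hx.2.1, hx.2.2⟩
    apply cluster_card (a' := max a (j * g)) ht0 ht1 ha (le_max_left _ _) hτ hC V hV w (hU1 w hz.1)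
      _ ((filter_subset _ _).trans hD)
    · intro x hx
      obtain ⟨e1, -, e3⟩ := hmem x hx
      apply max_le (hDa x e1)
      have e4 : (j : ℝ) ≤ ‖V.starProjection x‖ ^ 2 / g := by
        rw [← e3]
        exact Nat.floor_le (by positivity)
      rwa [le_div_iff₀ hg0] at e4
    · intro x hx
      obtain ⟨e1, -, e3⟩ := hmem x hx
      have e4 : ‖V.starProjection x‖ ^ 2 / g < j + 1 := by
        rw [← e3]
        exact Nat.lt_floor_add_one _
      rw [div_lt_iff₀ hg0] at e4
      have e5 : (j : ℝ) * g ≤ max a (j * g) := le_max_right _ _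
      nlinarith
    · intro x hx
      obtain ⟨e1, e2, -⟩ := hmem x hx
      have := hwf2 x e1
      rwa [e2] at this
  have h := card_le_mul_card_image_of_maps_to hmap (A (n - Module.finrank ℝ V) (t - (1 - t) * a / 2)) hfib
  refine h.trans ?_
  rw [card_product, card_range, Nat.mul_comm]
  apply Nat.mul_le_mul_right
  exact Nat.mul_le_mul_right _ hUc

end Pool.Agent.E8helper70.Sph
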