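import Mathlib

/-!
# Coordinate subspaces and the choice of coordinates
-/

set_option autoImplicit false

open Finset

namespace Pool.Agent.E8helper70.Sph

/-- the span of some coordinate vectors -/
lemma exists_coord (n : ℕ) (S : Finset (Fin n)) : ∃ V : Submodule ℝ (EuclideanSpace ℝ (Fin n)),
    Module.finrank ℝ V = S.card ∧ ∀ x : EuclideanSpace ℝ (Fin n), ‖V.starProjection x‖ ^ 2 = ∑ i ∈ S, x i ^ 2 := by
  classical
  set b := EuclideanSpace.basisFun (Fin n) ℝ with hb
  have hc := OrthonormalBasis.span b.orthonormal S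
  refine ⟨Submodule.span ℝ (S.image b : Set (EuclideanSpace ℝ (Fin n))), ?_, ?_⟩
  · have h := Module.finrank_eq_card_basis (OrthonormalBasis.span b.orthonormal S).toBasis
    rw [h, Fintype.card_coe]
  · intro x
    set V := Submodule.span ℝ (S.image b : Set (EuclideanSpace ℝ (Fin n))) with hV
    set c := OrthonormalBasis.span b.orthonormal S with hcdef
    have h1 : ‖V.starProjection x‖ = ‖V.orthogonalProjectionOnto x‖ := by
      rw [Submodule.starProjection_apply]
      rfl
    rw [h1, ← OrthonormalBasis.sum_sq_norm_inner_right c (V.orthogonalProjectionOnto x)]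
    rw [← Finset.sum_coe_sort S]
    apply Finset.sum_congr rfl
    intro i _
    have h2 : inner ℝ (c i) (V.orthogonalProjectionOnto x) = x i := by
      have h3 : inner ℝ (c i) (V.orthogonalProjectionOnto x) = inner ℝ ((c i : V) : EuclideanSpace ℝ (Fin n)) x :=
        Submodule.inner_orthogonalProjectionOnto_eq_of_mem_left (c i) x
      rw [h3, hcdef, OrthonormalBasis.span_apply, hb, EuclideanSpace.basisFun_apply,
        EuclideanSpace.inner_single_left]
      simp
    rw [h2, Real.norm_eq_abs, sq_abs]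

/-- a subset of given size with a small sum -/
lemma exists_small {ι : Type} [DecidableEq ι] (f : ι → ℝ) (T : Finset ι) : ∀ k : ℕ, k ≤ T.card →
    ∃ S ⊆ T, S.card = k ∧ (T.card : ℝ) * ∑ i ∈ S, f i ≤ k * ∑ i ∈ T, f i := by
  obtain ⟨m, hm⟩ : ∃ m, T.card = m := ⟨_, rfl⟩
  induction m generalizing T with
  | zero =>
    intro k hk
    have hk0 : k = 0 := by omega
    refine ⟨∅, empty_subset _, by simp [hk0], ?_⟩
    simp [hk0]
  | succ m ih =>
    intro k hk
    rcases Nat.eq_or_lt_of_le hk with h | h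
    · exact ⟨T, subset_rfl, h.symm, by rw [h]⟩
    · have hne : T.Nonempty := by rw [← card_pos]; omega
      obtain ⟨j, hj, hmax⟩ := exists_max_image T f hne
      have hc : (T.erase j).card = m := by rw [card_erase_of_mem hj]; omega
      obtain ⟨S, hS, hSk, hsum⟩ := ih (T.erase j) hc k (by omega)
      refine ⟨S, hS.trans (erase_subset _ _), hSk, ?_⟩
      have h1 : ∑ i ∈ T, f i = ∑ i ∈ T.erase j, f i + f j := (sum_erase_add _ _ hj).symm
      have h2 : ∑ i ∈ T.erase j, f i ≤ m * f j := by
        calc ∑ i ∈ T.erase j, f i ≤ ∑ i ∈ T.erase j, f j :=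
              sum_le_sum (fun i hi => hmax i (mem_of_mem_erase hi))
          _ = m * f j := by rw [sum_const, hc, nsmul_eq_mul]
      rw [hc] at hsum
      rw [hm, h1]
      push_cast
      rcases Nat.eq_zero_or_pos m with h0 | h0
      · have hk0 : k = 0 := by omega
        have hS0 : S = ∅ := by rw [← card_eq_zero]; omega
        rw [hS0, hk0]
        simp
      · have hm0 : (0 : ℝ) < m := by exact_mod_cast h0
        have hk0 : (0 : ℝ) ≤ k := Nat.cast_nonneg k
        have h3 : (m : ℝ) * (((m : ℝ) + 1) * ∑ i ∈ S, f i) ≤ m * (k * (∑ i ∈ T.erase j, f i + f j)) := by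
          have h4 : ((m : ℝ) + 1) * (m * ∑ i ∈ S, f i) ≤ ((m : ℝ) + 1) * (k * ∑ i ∈ T.erase j, f i) :=
            mul_le_mul_of_nonneg_left hsum (by positivity)
          have h5 : (k : ℝ) * ∑ i ∈ T.erase j, f i ≤ k * (m * f j) := mul_le_mul_of_nonneg_left h2 hk0
          nlinarith
        exact le_of_mul_le_mul_left h3 hm0

/-- a subset of given size with a large sum -/
lemma exists_large {ι : Type} [DecidableEq ι] (f : ι → ℝ) (T : Finset ι) (k : ℕ) (hk : k ≤ T.card) :
    ∃ S ⊆ T, S.card = k ∧ (k : ℝ) * ∑ i ∈ T, f i ≤ T.card * ∑ i ∈ S, f i := by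
  obtain ⟨S, hS, hSk, h⟩ := exists_small (fun i => - f i) T k hk
  refine ⟨S, hS, hSk, ?_⟩
  simp only [sum_neg_distrib] at h
  linarith

end Pool.Agent.E8helper70.Sph
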