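import Pool.Agent.E8helper70.Sph.Cluster
import Pool.Agent.E8helper70.Sph.Coord

/-!
# The two inequalities between the maximal sizes of codes
-/

set_option autoImplicit false

open Finset

namespace Pool.Agent.E8helper70.Sph

variable {n : ℕ}

lemma norm_sq_coord (x : EuclideanSpace ℝ (Fin n)) : ‖x‖ ^ 2 = ∑ i, x i ^ 2 := by
  rw [EuclideanSpace.norm_sq_eq]
  simp only [Real.norm_eq_abs, sq_abs]

lemma sum_coord {s : ℝ} {C : Finset (EuclideanSpace ℝ (Fin n))} (hC : IsCode n s C) :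
    ∑ i : Fin n, ∑ x ∈ C, x i ^ 2 = C.card := by
  rw [sum_comm]
  have : ∀ x ∈ C, ∑ i : Fin n, x i ^ 2 = (1 : ℝ) := by
    intro x hx
    rw [← norm_sq_coord, hC.1 x hx, one_pow]
  rw [sum_congr rfl this, sum_const, nsmul_eq_mul, mul_one]

/-- removing `k` dimensions -/
theorem punct {k : ℕ} (hk : k ≤ n) (hn : 0 < n) {lam s : ℝ} (hl : 1 < lam) (h0 : 0 ≤ s)
    (h : s + 2 * (lam * k / n) < 1) :
    (1 - 1 / lam) * A n s ≤ A (n - k) ((s + lam * k / n) / (1 - lam * k / n)) := by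
  classical
  have hn0 : (0 : ℝ) < n := by exact_mod_cast hn
  have hl0 : 0 < lam := by linarith
  rcases Nat.eq_zero_or_pos k with hk0 | hk0
  · subst hk0
    simp only [Nat.cast_zero, mul_zero, zero_div, add_zero, sub_zero, div_one, Nat.sub_zero]
    have : 0 ≤ 1 / lam := by positivity
    have h2 : (0 : ℝ) ≤ A n s := Nat.cast_nonneg _
    nlinarith
  have hk1 : (0 : ℝ) < k := by exact_mod_cast hk0
  set b := lam * k / n with hb
  have hb0 : 0 < b := by positivity
  have hs1 : s < 1 := by linarith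
  obtain ⟨C, hC, hCc⟩ := exists_max n h0 hs1
  obtain ⟨S, -, hSk, hS⟩ := exists_small (fun i : Fin n => ∑ x ∈ C, x i ^ 2) univ k (by simpa using hk)
  rw [card_univ, Fintype.card_fin, sum_coord hC] at hS
  obtain ⟨V, hVr, hV⟩ := exists_coord n S
  set D := C.filter (fun x => ‖V.starProjection x‖ ^ 2 ≤ b) with hD
  have h1 := card_small h0 hb0.le h hC V D (filter_subset _ _) (fun x hx => (mem_filter.1 hx).2)
  rw [hVr, hSk] at h1
  have h2 : (1 - 1 / lam) * A n s ≤ D.card := by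
    have e1 : (n : ℝ) * ∑ x ∈ C, ‖V.starProjection x‖ ^ 2 ≤ k * C.card := by
      refine le_trans (le_of_eq ?_) hS
      rw [sum_comm]
      congr 1
      exact sum_congr rfl (fun x _ => hV x)
    have e2 : ∑ x ∈ C.filter (fun x => ¬ ‖V.starProjection x‖ ^ 2 ≤ b), b ≤
        ∑ x ∈ C, ‖V.starProjection x‖ ^ 2 := by
      calc ∑ x ∈ C.filter (fun x => ¬ ‖V.starProjection x‖ ^ 2 ≤ b), b
          ≤ ∑ x ∈ C.filter (fun x => ¬ ‖V.starProjection x‖ ^ 2 ≤ b), ‖V.starProjection x‖ ^ 2 :=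
            sum_le_sum (fun x hx => (not_le.1 (mem_filter.1 hx).2).le)
        _ ≤ _ := sum_le_sum_of_subset_of_nonneg (filter_subset _ _) (fun _ _ _ => sq_nonneg _)
    rw [sum_const, nsmul_eq_mul] at e2
    have e3 : (C.filter (fun x => ¬ ‖V.starProjection x‖ ^ 2 ≤ b)).card + D.card = C.card := by
      rw [hD, add_comm]
      exact card_filter_add_card_filter_not _
    have e4 : ((C.filter (fun x => ¬ ‖V.starProjection x‖ ^ 2 ≤ b)).card : ℝ) + D.card = C.card := by
      exact_mod_cast e3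
    have e5 : (n : ℝ) * (((C.filter (fun x => ¬ ‖V.starProjection x‖ ^ 2 ≤ b)).card : ℝ) * b) ≤ k * C.card :=
      (mul_le_mul_of_nonneg_left e2 hn0.le).trans e1
    have e6 : (n : ℝ) * b = lam * k := by rw [hb]; field_simp
    have e7 : ((C.filter (fun x => ¬ ‖V.starProjection x‖ ^ 2 ≤ b)).card : ℝ) * lam ≤ C.card := by
      have e8 : k * (((C.filter (fun x => ¬ ‖V.starProjection x‖ ^ 2 ≤ b)).card : ℝ) * lam) ≤ k * C.card := by
        calc k * (((C.filter (fun x => ¬ ‖V.starProjection x‖ ^ 2 ≤ b)).card : ℝ) * lam)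
            = (n : ℝ) * (((C.filter (fun x => ¬ ‖V.starProjection x‖ ^ 2 ≤ b)).card : ℝ) * b) := by
              rw [mul_left_comm (n : ℝ), e6]; ring
          _ ≤ _ := e5
      exact le_of_mul_le_mul_left e8 hk1
    rw [← hCc, sub_mul, one_mul, div_mul_eq_mul_div, one_mul]
    have e9 : ((C.filter (fun x => ¬ ‖V.starProjection x‖ ^ 2 ≤ b)).card : ℝ) ≤ C.card / lam := by
      rwa [le_div_iff₀ hl0]
    linarith
  exact h2.trans (by exact_mod_cast h1)

/-- the number of shells -/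
noncomputable def Jn (t a : ℝ) : ℕ := ⌊1 / (a * ((1 - t) / 10))⌋₊ + 1

/-- using `k` dimensions of large energy -/
theorem large {k : ℕ} (hk : k < n) {t a : ℝ} (ht0 : 0 ≤ t) (ht1 : t < 1) (ha : 0 < a) (hak : a ≤ k / (2 * n))
    (hτ : 0 ≤ t - (1 - t) * a / 2) :
    (k : ℝ) / (2 * n) * A n t ≤
      A k (1 - (1 - t) / 10) * Jn t a * A (n - k) (t - (1 - t) * a / 2) := by
  classical
  have hn0 : (0 : ℝ) < n := by exact_mod_cast (show 0 < n by omega)
  obtain ⟨C, hC, hCc⟩ := exists_max n ht0 ht1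
  obtain ⟨S, -, hSk, hS⟩ := exists_large (fun i : Fin n => ∑ x ∈ C, x i ^ 2) univ k (by simpa using hk.le)
  rw [card_univ, Fintype.card_fin, sum_coord hC] at hS
  obtain ⟨V, hVr, hV⟩ := exists_coord n S
  set D := C.filter (fun x => (k : ℝ) / (2 * n) ≤ ‖V.starProjection x‖ ^ 2) with hD
  have h1 := card_large ht0 ht1 ha hτ hC V (by rw [hVr, hSk]; exact hk) D (filter_subset _ _)
    (fun x hx => hak.trans (mem_filter.1 hx).2)
  rw [hVr, hSk] at h1
  have e1 : k * (C.card : ℝ) ≤ (n : ℝ) * ∑ x ∈ C, ‖V.starProjection x‖ ^ 2 := by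
    refine hS.trans (le_of_eq ?_)
    rw [sum_comm]
    congr 1
    exact sum_congr rfl (fun x _ => (hV x).symm)
  have e2 : ∑ x ∈ C, ‖V.starProjection x‖ ^ 2 ≤ D.card + C.card * ((k : ℝ) / (2 * n)) := by
    rw [← sum_filter_add_sum_filter_not C (fun x => (k : ℝ) / (2 * n) ≤ ‖V.starProjection x‖ ^ 2)]
    apply add_le_add
    · rw [← hD]
      calc ∑ x ∈ D, ‖V.starProjection x‖ ^ 2 ≤ ∑ x ∈ D, (1 : ℝ) := by
            apply sum_le_sum
            intro x hx
            have e3 := norm_split V x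
            rw [hC.1 x (filter_subset _ _ hx)] at e3
            nlinarith [sq_nonneg ‖Vᗮ.starProjection x‖]
        _ = D.card := by rw [sum_const, nsmul_eq_mul, mul_one]
    · calc ∑ x ∈ C.filter (fun x => ¬ (k : ℝ) / (2 * n) ≤ ‖V.starProjection x‖ ^ 2), ‖V.starProjection x‖ ^ 2
          ≤ ∑ x ∈ C.filter (fun x => ¬ (k : ℝ) / (2 * n) ≤ ‖V.starProjection x‖ ^ 2), (k : ℝ) / (2 * n) :=
            sum_le_sum (fun x hx => (not_le.1 (mem_filter.1 hx).2).le)
        _ ≤ ∑ x ∈ C, (k : ℝ) / (2 * n) :=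
            sum_le_sum_of_subset_of_nonneg (filter_subset _ _) (fun _ _ _ => by positivity)
        _ = _ := by rw [sum_const, nsmul_eq_mul]
  have e4 : (k : ℝ) / (2 * n) * A n t ≤ D.card := by
    rw [← hCc]
    have e5 : (k : ℝ) * C.card ≤ n * (D.card + C.card * ((k : ℝ) / (2 * n))) :=
      e1.trans (mul_le_mul_of_nonneg_left e2 hn0.le)
    have e6 : (n : ℝ) * (C.card * ((k : ℝ) / (2 * n))) = k * C.card / 2 := by field_simp
    have e7 : (k : ℝ) * C.card / 2 ≤ n * D.card := by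
      rw [mul_add, e6] at e5
      linarith
    rw [div_mul_eq_mul_div, div_le_iff₀ (by positivity)]
    linarith
  refine e4.trans ?_
  unfold Jn
  exact_mod_cast h1

end Pool.Agent.E8helper70.Sph
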