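import Pool.Agent.E8helper70.Sph.Rate

/-!
# Continuity of the rates, and codes of nearly maximal exponential size
-/

set_option autoImplicit false

open Finset Filter Topology

namespace Pool.Agent.E8helper70.Sph

lemma Kb_mono {s t : ℝ} (h : s ≤ t) (h1 : t < 1) : Kb s ≤ Kb t := by
  have e : ∀ u : ℝ, u < 1 → Kb u = 1 / Real.sin (Real.arccos u / 2) + 2 := by
    intro u hu
    unfold Kb
    have := sin_pos hu
    field_simp
  rw [e s (by linarith), e t h1]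
  have h2 : Real.sin (Real.arccos t / 2) ≤ Real.sin (Real.arccos s / 2) := by
    have h3 : Real.arccos t ≤ Real.arccos s := Real.arccos_le_arccos h
    have h4 := Real.arccos_nonneg t
    have h5 := Real.arccos_le_pi s
    apply Real.sin_le_sin_of_le_of_le_pi_div_two <;> linarith [Real.pi_pos]
  have h3 := one_div_le_one_div_of_le (sin_pos h1) h2
  linarith

/-- the constant in the continuity estimate -/
noncomputable def Lc (t : ℝ) : ℝ := Real.logb 2 (Kb (1 - (1 - t) / 10))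

lemma Lc_nonneg {t : ℝ} (h1 : t < 1) : 0 ≤ Lc t :=
  Real.logb_nonneg (by norm_num) (one_le_Kb (by linarith))

lemma Lc_mono {s t : ℝ} (h : s ≤ t) (h1 : t < 1) : Lc s ≤ Lc t := by
  apply Real.logb_le_logb_of_le (by norm_num)
  · exact lt_of_lt_of_le one_pos (one_le_Kb (by linarith))
  · exact Kb_mono (by linarith) (by linarith)

lemma A_le_two {t : ℝ} (ht0 : 0 ≤ t) (ht1 : t < 1) (k : ℕ) :
    (A k (1 - (1 - t) / 10) : ℝ) ≤ 2 ^ (Lc t * k) := by
  have h := A_le_pow k (s := 1 - (1 - t) / 10) (by linarith) (by linarith)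
  refine h.trans (le_of_eq ?_)
  unfold Lc
  have h2 : 0 < Kb (1 - (1 - t) / 10) := lt_of_lt_of_le one_pos (one_le_Kb (by linarith))
  rw [Real.rpow_mul (by norm_num), Real.rpow_logb (by norm_num) (by norm_num) h2, Real.rpow_natCast]

/-- the inequality for all large `n` -/
lemma lip_ineq {t ε : ℝ} (ht0 : 0 ≤ t) (ht1 : t < 1) (hε0 : 0 < ε) (hε1 : ε < 1)
    (hτ : 0 ≤ t - (1 - t) * ε / 4) {η : ℝ} (hη : 0 < η) : ∀ᶠ n : ℕ in atTop,
    (A n t : ℝ) ≤ 2 ^ ((ε * Lc t + η) * n) * A n (t - (1 - t) * ε / 4) := by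
  have hlim : Tendsto (fun n : ℕ => (Lc t + Real.logb 2 (2 / ε * Jn t (ε / 2))) / (n : ℝ)) atTop (𝓝 0) :=
    tendsto_const_div_atTop_nhds_zero_nat _
  obtain ⟨N, hN⟩ := exists_nat_gt (1 / (1 - ε))
  filter_upwards [hlim.eventually (gt_mem_nhds hη), eventually_ge_atTop (max N 1)] with n hn hn1
  have hn0 : 0 < n := lt_of_lt_of_le one_pos ((le_max_right _ _).trans hn1)
  have hn' : (0 : ℝ) < n := by exact_mod_cast hn0
  have hN' : 1 / (1 - ε) < n := hN.trans_le (by exact_mod_cast (le_max_left _ _).trans hn1)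
  rw [div_lt_iff₀ (by linarith)] at hN'
  rw [div_lt_iff₀ hn'] at hn
  set k := ⌈ε * n⌉₊ with hk
  have hk1 : ε * n ≤ k := Nat.le_ceil _
  have hk2 : (k : ℝ) < ε * n + 1 := Nat.ceil_lt_add_one (by positivity)
  have hkn : k < n := by
    have : (k : ℝ) < n := by linarith
    exact_mod_cast this
  have hτe : t - (1 - t) * (ε / 2) / 2 = t - (1 - t) * ε / 4 := by ring
  have h1 := large hkn ht0 ht1 (a := ε / 2) (by positivity) (by
    rw [le_div_iff₀ (by positivity)]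
    linarith) (by rw [hτe]; exact hτ)
  rw [hτe] at h1
  have hτ1 : t - (1 - t) * ε / 4 < 1 := by
    have : 0 ≤ (1 - t) * ε := mul_nonneg (by linarith) hε0.le
    linarith
  have h2 : (A (n - k) (t - (1 - t) * ε / 4) : ℝ) ≤ A n (t - (1 - t) * ε / 4) := by
    exact_mod_cast A_mono_n (Nat.sub_le n k) hτ hτ1
  have h3 := A_le_two ht0 ht1 k
  have h4 : ε / 2 ≤ (k : ℝ) / (2 * n) := by
    rw [le_div_iff₀ (by positivity)]
    linarith
  have hJ : (0 : ℝ) < Jn t (ε / 2) := by unfold Jn; positivity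
  have hA0 : (0 : ℝ) ≤ A n t := Nat.cast_nonneg _
  have hA1 : (0 : ℝ) ≤ A (n - k) (t - (1 - t) * ε / 4) := Nat.cast_nonneg _
  have hA2 : (0 : ℝ) ≤ A n (t - (1 - t) * ε / 4) := Nat.cast_nonneg _
  have h5 : ε / 2 * (A n t : ℝ) ≤ 2 ^ (Lc t * k) * Jn t (ε / 2) * A n (t - (1 - t) * ε / 4) := by
    calc ε / 2 * (A n t : ℝ) ≤ (k : ℝ) / (2 * n) * A n t := mul_le_mul_of_nonneg_right h4 hA0
      _ ≤ A k (1 - (1 - t) / 10) * Jn t (ε / 2) * A (n - k) (t - (1 - t) * ε / 4) := h1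
      _ ≤ 2 ^ (Lc t * k) * Jn t (ε / 2) * A n (t - (1 - t) * ε / 4) := by gcongr
  have h6 : (A n t : ℝ) ≤ 2 ^ (Lc t * k) * (2 / ε * Jn t (ε / 2)) * A n (t - (1 - t) * ε / 4) := by
    have h7 : (A n t : ℝ) = 2 / ε * (ε / 2 * A n t) := by field_simp
    rw [h7]
    calc 2 / ε * (ε / 2 * (A n t : ℝ)) ≤ 2 / ε * (2 ^ (Lc t * k) * Jn t (ε / 2) * A n (t - (1 - t) * ε / 4)) :=
          mul_le_mul_of_nonneg_left h5 (by positivity)
      _ = _ := by ring
  refine h6.trans (mul_le_mul_of_nonneg_right ?_ hA2)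
  have h8 : 2 / ε * (Jn t (ε / 2) : ℝ) = 2 ^ Real.logb 2 (2 / ε * Jn t (ε / 2)) :=
    (Real.rpow_logb (by norm_num) (by norm_num) (by positivity)).symm
  conv_lhs => rw [h8]
  rw [← Real.rpow_add (by norm_num)]
  apply Real.rpow_le_rpow_of_exponent_le (by norm_num)
  have hL := Lc_nonneg ht1
  have h9 : Lc t * k ≤ Lc t * (ε * n + 1) := mul_le_mul_of_nonneg_left hk2.le hL
  nlinarith

lemma step_lip {t ε : ℝ} (ht0 : 0 ≤ t) (ht1 : t < 1) (hε0 : 0 < ε) (hε1 : ε < 1)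
    (hτ : 0 ≤ t - (1 - t) * ε / 4) :
    Rsup t ≤ Rsup (t - (1 - t) * ε / 4) + ε * Lc t ∧ Rinf t ≤ Rinf (t - (1 - t) * ε / 4) + ε * Lc t := by
  have hτ1 : t - (1 - t) * ε / 4 < 1 := by
    have : 0 ≤ (1 - t) * ε := mul_nonneg (by linarith) hε0.le
    linarith
  have key : ∀ (R η : ℝ) (n : ℕ), (A n t : ℝ) ≤ 2 ^ ((ε * Lc t + η / 2) * n) * A n (t - (1 - t) * ε / 4) →
      (A n (t - (1 - t) * ε / 4) : ℝ) ≤ 2 ^ ((R + η / 2) * n) → (A n t : ℝ) ≤ 2 ^ ((R + ε * Lc t + η) * n) := by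
    intro R η n h1 h2
    refine h1.trans ?_
    calc (2 : ℝ) ^ ((ε * Lc t + η / 2) * n) * A n (t - (1 - t) * ε / 4)
        ≤ 2 ^ ((ε * Lc t + η / 2) * n) * 2 ^ ((R + η / 2) * n) :=
          mul_le_mul_of_nonneg_left h2 (by positivity)
      _ = 2 ^ ((R + ε * Lc t + η) * n) := by
          rw [← Real.rpow_add (by norm_num)]
          congr 1
          ring
  constructor
  · apply Rsup_le ht0 ht1
    intro η hη
    filter_upwards [lip_ineq ht0 ht1 hε0 hε1 hτ (half_pos hη), ev_le hτ hτ1 (half_pos hη)] with n h1 h2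
    exact key _ _ _ h1 h2
  · apply Rinf_le ht0 ht1
    intro η hη
    refine ((fr_le hτ hτ1 (half_pos hη)).and_eventually (lip_ineq ht0 ht1 hε0 hε1 hτ (half_pos hη))).mono ?_
    rintro n ⟨h2, h1⟩
    exact key _ _ _ h1 h2

/-- **the rates are Lipschitz continuous on `[0, T]`, `T < 1`** -/
theorem lip (T : ℝ) (hT0 : 0 ≤ T) (hT : T < 1) : ∃ K : ℝ, 0 < K ∧ ∀ s t : ℝ, 0 ≤ s → s ≤ t → t ≤ T →
    Rsup t ≤ Rsup s + K * (t - s) ∧ Rinf t ≤ Rinf s + K * (t - s) := by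
  have hT1 : 0 < 1 - T := by linarith
  have hL := Lc_nonneg hT
  have hR0 : 0 ≤ Rsup T := (Rinf_nonneg hT0 hT).trans (Rinf_le_Rsup hT0 hT)
  refine ⟨4 * (Lc T + Rsup T + 1) / (1 - T), by positivity, ?_⟩
  intro s t hs hst htT
  have ht0 : 0 ≤ t := hs.trans hst
  have ht1 : t < 1 := htT.trans_lt hT
  have hs1 : s < 1 := hst.trans_lt ht1
  rcases eq_or_lt_of_le hst with rfl | hlt
  · simp
  have h1t : 0 < 1 - t := by linarith
  have hinv : 1 / (1 - t) ≤ 1 / (1 - T) := one_div_le_one_div_of_le hT1 (by linarith)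
  have hd : 0 < t - s := by linarith
  rcases lt_or_ge (4 * (t - s) / (1 - t)) 1 with hε | hε
  · have hε0 : 0 < 4 * (t - s) / (1 - t) := by positivity
    have he : t - (1 - t) * (4 * (t - s) / (1 - t)) / 4 = s := by field_simp; ring
    obtain ⟨h1, h2⟩ := step_lip ht0 ht1 hε0 hε (by rw [he]; exact hs)
    rw [he] at h1 h2
    have h3 : 4 * (t - s) / (1 - t) * Lc t ≤ 4 * (Lc T + Rsup T + 1) / (1 - T) * (t - s) := by
      have h4 : Lc t ≤ Lc T + Rsup T + 1 := by linarith [Lc_mono htT hT]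
      calc 4 * (t - s) / (1 - t) * Lc t = 4 * (t - s) * (1 / (1 - t)) * Lc t := by ring
        _ ≤ 4 * (t - s) * (1 / (1 - T)) * (Lc T + Rsup T + 1) := by
            have := Lc_nonneg ht1
            gcongr
        _ = _ := by ring
    exact ⟨by linarith, by linarith⟩
  · have h3 : 1 ≤ 4 * (t - s) / (1 - T) := by
      refine hε.trans ?_
      calc 4 * (t - s) / (1 - t) = 4 * (t - s) * (1 / (1 - t)) := by ring
        _ ≤ 4 * (t - s) * (1 / (1 - T)) := by gcongr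
        _ = _ := by ring
    have h4 : Rsup T + 1 ≤ 4 * (Lc T + Rsup T + 1) / (1 - T) * (t - s) := by
      calc Rsup T + 1 ≤ (Lc T + Rsup T + 1) * 1 := by linarith
        _ ≤ (Lc T + Rsup T + 1) * (4 * (t - s) / (1 - T)) :=
            mul_le_mul_of_nonneg_left h3 (by linarith)
        _ = _ := by ring
    have h5 := (mono_weak ht0 htT hT).1
    have h6 := Rinf_le_Rsup ht0 ht1
    have h7 := Rinf_nonneg hs hs1
    have h8 := Rinf_le_Rsup hs hs1
    exact ⟨by linarith, by linarith⟩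

open Classical in
/-- **subspaces of large dimension** -/
theorem far {s ε : ℝ} (h0 : 0 < s) (h1 : s < 1) (hε0 : 0 < ε) (hε1 : ε < 1) :
    ∃ ρ η : ℝ, 0 < ρ ∧ 0 < η ∧ ∃ n₀ : ℕ, ∀ n : ℕ, n₀ ≤ n → ∀ C : Finset (EuclideanSpace ℝ (Fin n)),
      IsCode n s C → (2 : ℝ) ^ ((Rsup s - η) * n) ≤ C.card →
      ∀ V : Submodule ℝ (EuclideanSpace ℝ (Fin n)), ε * n ≤ Module.finrank ℝ V →
      ((C.filter (fun x => ‖V.starProjection x‖ ^ 2 ≤ ρ)).card : ℝ) ≤ 2 ^ (-η * n) * C.card := by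
  have hR : 0 < Rsup s := (Rinf_pos h0 h1).trans_le (Rinf_le_Rsup h0.le h1)
  obtain ⟨K, hK, hlip⟩ := lip ((1 + s) / 2) (by linarith) (by linarith)
  -- choice of rho
  obtain ⟨ρ, hρ0, hρ1, hρ2, hρ3⟩ : ∃ ρ : ℝ, 0 < ρ ∧ s + 2 * ρ < 1 ∧ (s + ρ) / (1 - ρ) ≤ (1 + s) / 2 ∧
      Rsup ((s + ρ) / (1 - ρ)) ≤ Rsup s + ε * Rsup s / 4 := by
    have hc : ContinuousAt (fun ρ : ℝ => (s + ρ) / (1 - ρ)) 0 := by
      apply ContinuousAt.div
      · fun_prop
      · fun_prop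
      · norm_num
    have hθ : 0 < min ((1 - s) / 2) (ε * Rsup s / (4 * K)) := by
      apply lt_min
      · linarith
      · positivity
    have e1 : ∀ᶠ ρ in 𝓝 (0 : ℝ), (s + ρ) / (1 - ρ) < s + min ((1 - s) / 2) (ε * Rsup s / (4 * K)) :=
      hc.eventually_lt_const (by simpa using hθ)
    have hc2 : ContinuousAt (fun ρ : ℝ => s + 2 * ρ) 0 := by fun_prop
    have e2 : ∀ᶠ ρ in 𝓝 (0 : ℝ), s + 2 * ρ < 1 := hc2.eventually_lt_const (by simpa using h1)
    have e3 : ∀ᶠ ρ in 𝓝[>] (0 : ℝ), 0 < ρ := eventually_mem_nhdsWithin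
    obtain ⟨ρ, h4, h5, h6⟩ := ((e1.filter_mono nhdsWithin_le_nhds).and
      ((e2.filter_mono nhdsWithin_le_nhds).and e3)).exists
    have hρlt : ρ < 1 := by linarith
    have h7 : (s + ρ) / (1 - ρ) ≤ (1 + s) / 2 := by
      have := min_le_left ((1 - s) / 2) (ε * Rsup s / (4 * K))
      linarith
    have h8 : s ≤ (s + ρ) / (1 - ρ) := by
      rw [le_div_iff₀ (by linarith)]
      nlinarith
    refine ⟨ρ, h6, h5, h7, ?_⟩
    have h9 := (hlip s _ h0.le h8 h7).1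
    have h10 : K * ((s + ρ) / (1 - ρ) - s) ≤ ε * Rsup s / 4 := by
      have h11 : (s + ρ) / (1 - ρ) - s ≤ ε * Rsup s / (4 * K) := by
        have := min_le_right ((1 - s) / 2) (ε * Rsup s / (4 * K))
        linarith
      calc K * ((s + ρ) / (1 - ρ) - s) ≤ K * (ε * Rsup s / (4 * K)) := mul_le_mul_of_nonneg_left h11 hK.le
        _ = _ := by field_simp
    linarith
  have hs' : 0 ≤ (s + ρ) / (1 - ρ) := div_nonneg (by linarith) (by linarith)
  have hs1' : (s + ρ) / (1 - ρ) < 1 := by linarith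
  have hη : 0 < ε * Rsup s / 8 := by positivity
  obtain ⟨M, hM⟩ := eventually_atTop.1 (ev_le hs' hs1' hη)
  obtain ⟨N, hN⟩ := exists_nat_ge (((M : ℝ) + 1) / (1 - ε))
  refine ⟨ρ, ε * Rsup s / 8, hρ0, hη, N, ?_⟩
  intro n hn C hC hcard V hV
  have hn' : (N : ℝ) ≤ n := by exact_mod_cast hn
  have hMn := hN.trans hn'
  rw [div_le_iff₀ (by linarith)] at hMn
  have hn0 : (0 : ℝ) ≤ n := Nat.cast_nonneg n
  have hk1 : ⌈ε * n⌉₊ ≤ Module.finrank ℝ V := Nat.ceil_le.2 hV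
  have hk2 : ε * n ≤ ⌈ε * n⌉₊ := Nat.le_ceil _
  have hk3 : (⌈ε * n⌉₊ : ℝ) < ε * n + 1 := Nat.ceil_lt_add_one (by positivity)
  have hVn : Module.finrank ℝ V ≤ n := by
    have := Submodule.finrank_le V
    rwa [finrank_euclideanSpace_fin] at this
  have hkn : ⌈ε * n⌉₊ ≤ n := hk1.trans hVn
  have hcast : ((n - ⌈ε * n⌉₊ : ℕ) : ℝ) = (n : ℝ) - ⌈ε * n⌉₊ := Nat.cast_sub hkn
  have hMle : M ≤ n - ⌈ε * n⌉₊ := by
    have : (M : ℝ) ≤ ((n - ⌈ε * n⌉₊ : ℕ) : ℝ) := by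
      rw [hcast]
      linarith
    exact_mod_cast this
  have h2 := card_small h0.le hρ0.le hρ1 hC V (C.filter (fun x => ‖V.starProjection x‖ ^ 2 ≤ ρ))
    (filter_subset _ _) (fun x hx => (mem_filter.1 hx).2)
  have h3 : (A (n - Module.finrank ℝ V) ((s + ρ) / (1 - ρ)) : ℝ) ≤ A (n - ⌈ε * n⌉₊) ((s + ρ) / (1 - ρ)) := by
    exact_mod_cast A_mono_n (by omega) hs' hs1'
  have h4 := hM _ hMle
  have h5 : ((C.filter (fun x => ‖V.starProjection x‖ ^ 2 ≤ ρ)).card : ℝ) ≤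
      2 ^ ((Rsup ((s + ρ) / (1 - ρ)) + ε * Rsup s / 8) * ((n - ⌈ε * n⌉₊ : ℕ) : ℝ)) := by
    refine le_trans ?_ (h3.trans h4)
    exact_mod_cast h2
  have h6 : (2 : ℝ) ^ ((Rsup s - 2 * (ε * Rsup s / 8)) * n) ≤ 2 ^ (-(ε * Rsup s / 8) * n) * C.card := by
    calc (2 : ℝ) ^ ((Rsup s - 2 * (ε * Rsup s / 8)) * n)
        = 2 ^ (-(ε * Rsup s / 8) * n) * 2 ^ ((Rsup s - ε * Rsup s / 8) * n) := by
          rw [← Real.rpow_add (by norm_num)]
          congr 1
          ring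
      _ ≤ _ := mul_le_mul_of_nonneg_left hcard (by positivity)
  refine h5.trans (le_trans ?_ h6)
  apply Real.rpow_le_rpow_of_exponent_le (by norm_num)
  rw [hcast]
  have h7 : (Rsup ((s + ρ) / (1 - ρ)) + ε * Rsup s / 8) * ((n : ℝ) - ⌈ε * n⌉₊) ≤
      (Rsup s + ε * Rsup s / 4 + ε * Rsup s / 8) * ((1 - ε) * n) := by
    apply mul_le_mul (by linarith) (by linarith)
    · have : (⌈ε * n⌉₊ : ℝ) ≤ n := by exact_mod_cast hkn
      linarith
    · positivity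
  refine h7.trans ?_
  have h8 : (Rsup s + ε * Rsup s / 4 + ε * Rsup s / 8) * (1 - ε) ≤ Rsup s - 2 * (ε * Rsup s / 8) := by
    have h9 : 0 < ε * Rsup s := by positivity
    nlinarith
  calc (Rsup s + ε * Rsup s / 4 + ε * Rsup s / 8) * ((1 - ε) * n)
      = ((Rsup s + ε * Rsup s / 4 + ε * Rsup s / 8) * (1 - ε)) * n := by ring
    _ ≤ _ := mul_le_mul_of_nonneg_right h8 hn0

open Classical in
/-- **subspaces of small dimension** -/
theorem near {s δ : ℝ} (h0 : 0 < s) (h1 : s < 1) (hδ : 0 < δ) :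
    ∃ κ η : ℝ, 0 < κ ∧ 0 < η ∧ ∃ n₀ : ℕ, ∀ n : ℕ, n₀ ≤ n → ∀ C : Finset (EuclideanSpace ℝ (Fin n)),
      IsCode n s C → (2 : ℝ) ^ ((Rsup s - η) * n) ≤ C.card →
      ∀ V : Submodule ℝ (EuclideanSpace ℝ (Fin n)), Module.finrank ℝ V ≤ κ * n →
      ((C.filter (fun x => δ ≤ ‖V.starProjection x‖ ^ 2)).card : ℝ) ≤ 2 ^ (-η * n) * C.card := by
  set a := min δ s with ha
  have ha0 : 0 < a := lt_min hδ h0
  have has : a ≤ s := min_le_right _ _
  have hτ : 0 ≤ s - (1 - s) * a / 2 := by nlinarith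
  have hτs : s - (1 - s) * a / 2 < s := by
    have : 0 < (1 - s) * a := mul_pos (by linarith) ha0
    linarith
  have hgap := (strict hτ hτs h1).1
  set Δ := Rsup s - Rsup (s - (1 - s) * a / 2) with hΔ
  have hΔ0 : 0 < Δ := by rw [hΔ]; linarith
  have hL := Lc_nonneg h1
  have hη : 0 < Δ / 8 := by positivity
  set κ := min (1 / 2) (Δ / (8 * (Lc s + 1))) with hκ
  have hκ0 : 0 < κ := lt_min (by norm_num) (by positivity)
  have hlim : Tendsto (fun n : ℕ => Real.logb 2 (Jn s a) / (n : ℝ)) atTop (𝓝 0) :=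
    tendsto_const_div_atTop_nhds_zero_nat _
  obtain ⟨N, hN⟩ := eventually_atTop.1 ((hlim.eventually (gt_mem_nhds hη)).and
    ((ev_le hτ (hτs.trans h1) hη).and (eventually_gt_atTop 0)))
  refine ⟨κ, Δ / 8, hκ0, hη, N, ?_⟩
  intro n hn C hC hcard V hV
  obtain ⟨h2, h3, hn0⟩ := hN n hn
  have hn' : (0 : ℝ) < n := by exact_mod_cast hn0
  rw [div_lt_iff₀ hn'] at h2
  have hVn : Module.finrank ℝ V < n := by
    have h4 : κ * n ≤ 1 / 2 * n := mul_le_mul_of_nonneg_right (min_le_left _ _) hn'.le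
    have h5 : (Module.finrank ℝ V : ℝ) < n := by linarith
    exact_mod_cast h5
  have h4 := card_large h0.le h1 ha0 hτ hC V hVn (C.filter (fun x => δ ≤ ‖V.starProjection x‖ ^ 2))
    (filter_subset _ _) (fun x hx => (min_le_left _ _).trans (mem_filter.1 hx).2)
  have h5 : ((C.filter (fun x => δ ≤ ‖V.starProjection x‖ ^ 2)).card : ℝ) ≤
      2 ^ (Lc s * Module.finrank ℝ V) * Jn s a * A n (s - (1 - s) * a / 2) := by
    have h6 : ((C.filter (fun x => δ ≤ ‖V.starProjection x‖ ^ 2)).card : ℝ) ≤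
        A (Module.finrank ℝ V) (1 - (1 - s) / 10) * Jn s a * A (n - Module.finrank ℝ V) (s - (1 - s) * a / 2) := by
      unfold Jn
      exact_mod_cast h4
    refine h6.trans ?_
    have h7 := A_le_two h0.le h1 (Module.finrank ℝ V)
    have h8 : (A (n - Module.finrank ℝ V) (s - (1 - s) * a / 2) : ℝ) ≤ A n (s - (1 - s) * a / 2) := by
      exact_mod_cast A_mono_n (Nat.sub_le _ _) hτ (hτs.trans h1)
    have h9 : (0 : ℝ) ≤ Jn s a := Nat.cast_nonneg _
    gcongr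
  have hJ : (0 : ℝ) < Jn s a := by unfold Jn; positivity
  have h6 : (Jn s a : ℝ) ≤ 2 ^ (Δ / 8 * n) := by
    calc (Jn s a : ℝ) = 2 ^ Real.logb 2 (Jn s a) := (Real.rpow_logb (by norm_num) (by norm_num) hJ).symm
      _ ≤ _ := Real.rpow_le_rpow_of_exponent_le (by norm_num) h2.le
  have h7 : (2 : ℝ) ^ (Lc s * Module.finrank ℝ V) ≤ 2 ^ (Δ / 8 * n) := by
    apply Real.rpow_le_rpow_of_exponent_le (by norm_num)
    calc Lc s * Module.finrank ℝ V ≤ Lc s * (κ * n) := mul_le_mul_of_nonneg_left hV hL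
      _ ≤ Lc s * (Δ / (8 * (Lc s + 1)) * n) := by
          have : κ ≤ Δ / (8 * (Lc s + 1)) := min_le_right _ _
          gcongr
      _ = (Lc s / (Lc s + 1)) * (Δ / 8 * n) := by field_simp
      _ ≤ 1 * (Δ / 8 * n) := by
          apply mul_le_mul_of_nonneg_right _ (by positivity)
          rw [div_le_one (by linarith)]
          linarith
      _ = _ := one_mul _
  have h8 : (2 : ℝ) ^ ((Rsup s - 2 * (Δ / 8)) * n) ≤ 2 ^ (-(Δ / 8) * n) * C.card := by
    calc (2 : ℝ) ^ ((Rsup s - 2 * (Δ / 8)) * n)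
        = 2 ^ (-(Δ / 8) * n) * 2 ^ ((Rsup s - Δ / 8) * n) := by
          rw [← Real.rpow_add (by norm_num)]
          congr 1
          ring
      _ ≤ _ := mul_le_mul_of_nonneg_left hcard (by positivity)
  refine h5.trans (le_trans ?_ h8)
  calc (2 : ℝ) ^ (Lc s * Module.finrank ℝ V) * Jn s a * A n (s - (1 - s) * a / 2)
      ≤ 2 ^ (Δ / 8 * n) * 2 ^ (Δ / 8 * n) * 2 ^ ((Rsup (s - (1 - s) * a / 2) + Δ / 8) * n) := by
        gcongr
    _ = 2 ^ ((Rsup s - 5 * (Δ / 8)) * n) := by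
        rw [← Real.rpow_add (by norm_num), ← Real.rpow_add (by norm_num)]
        congr 1
        rw [hΔ]
        ring
    _ ≤ _ := by
        apply Real.rpow_le_rpow_of_exponent_le (by norm_num)
        apply mul_le_mul_of_nonneg_right _ hn'.le
        linarith

end Pool.Agent.E8helper70.Sph
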