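import Mathlib

/-!
# Counting integer vectors of small `ℓ¹` norm and compositions
-/

set_option autoImplicit false

open Finset

namespace Pool.Agent.E8helper70.Sph

lemma geom_int {lam : ℝ} (h0 : 0 < lam) (h1 : lam < 1) (L : ℕ) :
    ∑ j ∈ Icc (-(L : ℤ)) L, lam ^ j.natAbs = (1 + lam - 2 * lam ^ (L + 1)) / (1 - lam) := by
  have h2 : (1 - lam) ≠ 0 := by linarith
  induction L with
  | zero =>
    simp
    field_simp
    ring
  | succ L ih =>
    have e : Icc (-((L + 1 : ℕ) : ℤ)) ((L + 1 : ℕ) : ℤ) =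
        insert ((L : ℤ) + 1) (insert (-((L : ℤ) + 1)) (Icc (-(L : ℤ)) L)) := by
      ext j
      simp only [mem_Icc, mem_insert]
      push_cast
      omega
    rw [e, sum_insert, sum_insert, ih]
    · have e1 : ((L : ℤ) + 1).natAbs = L + 1 := by omega
      have e2 : (-((L : ℤ) + 1)).natAbs = L + 1 := by omega
      rw [e1, e2]
      field_simp
      ring
    · simp only [mem_Icc]
      omega
    · simp only [mem_insert, mem_Icc]
      omega

lemma geom_int_le {lam : ℝ} (h0 : 0 < lam) (h1 : lam < 1) (L : ℕ) :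
    ∑ j ∈ Icc (-(L : ℤ)) L, lam ^ j.natAbs ≤ (1 + lam) / (1 - lam) := by
  rw [geom_int h0 h1]
  have : 0 < 1 - lam := by linarith
  have h2 : 0 < lam ^ (L + 1) := by positivity
  exact div_le_div_of_nonneg_right (by linarith) this.le

/-- the number of integer vectors with sum of the absolute values at most `M` -/
lemma card_l1 {n : ℕ} {lam : ℝ} (h0 : 0 < lam) (h1 : lam < 1) (M : ℕ) (Z : Finset (Fin n → ℤ))
    (hZ : ∀ z ∈ Z, ∑ i, (z i).natAbs ≤ M) : (Z.card : ℝ) * lam ^ M ≤ ((1 + lam) / (1 - lam)) ^ n := by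
  have hsub : Z ⊆ Fintype.piFinset (fun _ : Fin n => Icc (-(M : ℤ)) M) := by
    intro z hz
    rw [Fintype.mem_piFinset]
    intro i
    have h2 : (z i).natAbs ≤ M :=
      (single_le_sum (f := fun i => (z i).natAbs) (fun _ _ => Nat.zero_le _) (mem_univ i)).trans (hZ z hz)
    rw [mem_Icc]
    omega
  calc (Z.card : ℝ) * lam ^ M = ∑ z ∈ Z, lam ^ M := by rw [sum_const, nsmul_eq_mul]
    _ ≤ ∑ z ∈ Z, ∏ i, lam ^ (z i).natAbs := by
        apply sum_le_sum
        intro z hz
        rw [prod_pow_eq_pow_sum]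
        exact pow_le_pow_of_le_one h0.le h1.le (hZ z hz)
    _ ≤ ∑ z ∈ Fintype.piFinset (fun _ : Fin n => Icc (-(M : ℤ)) M), ∏ i, lam ^ (z i).natAbs := by
        apply sum_le_sum_of_subset_of_nonneg hsub
        intro z _ _
        exact prod_nonneg (fun i _ => by positivity)
    _ = ∏ _i : Fin n, ∑ j ∈ Icc (-(M : ℤ)) M, lam ^ j.natAbs :=
        (prod_univ_sum (fun _ : Fin n => Icc (-(M : ℤ)) M) (fun _ j => lam ^ j.natAbs)).symm
    _ ≤ ∏ _i : Fin n, ((1 + lam) / (1 - lam)) :=
        prod_le_prod (fun i _ => sum_nonneg (fun j _ => by positivity)) (fun i _ => geom_int_le h0 h1 M)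
    _ = ((1 + lam) / (1 - lam)) ^ n := by rw [prod_const, card_univ, Fintype.card_fin]

/-- the composition of a vector with entries in `[-m, m]` -/
def comp {n : ℕ} (m : ℕ) (u : Fin n → ℤ) : Fin (2 * m + 1) → ℕ :=
  fun j => (univ.filter (fun i => u i = (j : ℤ) - m)).card

lemma comp_mem {n : ℕ} (m : ℕ) (u : Fin n → ℤ) :
    comp m u ∈ Fintype.piFinset (fun _ : Fin (2 * m + 1) => range (n + 1)) := by
  rw [Fintype.mem_piFinset]
  intro j
  rw [mem_range, Nat.lt_succ_iff]
  exact (card_filter_le _ _).trans (by simp)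

lemma card_comps (n m : ℕ) :
    (Fintype.piFinset (fun _ : Fin (2 * m + 1) => range (n + 1))).card = (n + 1) ^ (2 * m + 1) := by
  rw [Fintype.card_piFinset]
  simp

/-- vectors with the same fibre sizes are permutations of each other -/
lemma exists_perm {n : ℕ} (u v : Fin n → ℤ)
    (h : ∀ c : ℤ, (univ.filter (fun i => u i = c)).card = (univ.filter (fun i => v i = c)).card) :
    ∃ σ : Equiv.Perm (Fin n), u = v ∘ σ := by
  classical
  have e : ∀ c : ℤ, Nonempty ({i // u i = c} ≃ {i // v i = c}) := by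
    intro c
    apply Fintype.card_eq.1
    rw [Fintype.card_subtype, Fintype.card_subtype]
    exact h c
  choose E hE using fun c => (⟨(e c).some, trivial⟩ : ∃ _ : {i // u i = c} ≃ {i // v i = c}, True)
  refine ⟨(Equiv.sigmaFiberEquiv u).symm.trans ((Equiv.sigmaCongrRight E).trans (Equiv.sigmaFiberEquiv v)), ?_⟩
  funext i
  have := (E (u i) ⟨i, rfl⟩).2
  simp only [Function.comp, Equiv.trans_apply]
  exact this.symm

lemma perm_of_comp {n m : ℕ} {u v : Fin n → ℤ} (hu : ∀ i, |u i| ≤ m) (hv : ∀ i, |v i| ≤ m)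
    (h : comp m u = comp m v) : ∃ σ : Equiv.Perm (Fin n), u = v ∘ σ := by
  apply exists_perm
  intro c
  rcases le_or_gt |c| m with hc | hc
  · rw [abs_le] at hc
    have hj : (c + m).toNat < 2 * m + 1 := by omega
    have h2 := congrFun h ⟨(c + m).toNat, hj⟩
    unfold comp at h2
    have e : (((⟨(c + m).toNat, hj⟩ : Fin (2 * m + 1)) : ℕ) : ℤ) - m = c := by
      simp only
      omega
    simp only [e] at h2
    exact h2
  · have e1 : univ.filter (fun i => u i = c) = ∅ := by
      apply filter_eq_empty_iff.2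
      rintro i _ rfl
      exact absurd (hu i) (not_le.2 hc)
    have e2 : univ.filter (fun i => v i = c) = ∅ := by
      apply filter_eq_empty_iff.2
      rintro i _ rfl
      exact absurd (hv i) (not_le.2 hc)
    rw [e1, e2]

end Pool.Agent.E8helper70.Sph
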