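import Pool.Agent.E8helper70.Sph.Orbit

/-!
# The rates of the codes in orbits of bounded integer vectors
-/

set_option autoImplicit false

open Finset Filter Topology

namespace Pool.Agent.E8helper70.Sph

lemma poly_le (k : ℕ) {ε : ℝ} (hε : 0 < ε) : ∀ᶠ n : ℕ in atTop, ((n : ℝ) + 1) ^ k ≤ 2 ^ (ε * n) := by
  have hr : 1 < (2 : ℝ) ^ ε := Real.one_lt_rpow (by norm_num) hε
  have h := tendsto_pow_const_div_const_pow_of_one_lt k hr
  have h2 : 0 < ((1 : ℝ) / 2) ^ k := by positivity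
  filter_upwards [h.eventually (gt_mem_nhds h2), eventually_ge_atTop 1] with n hn hn1
  have hn1' : (1 : ℝ) ≤ n := by exact_mod_cast hn1
  have hpos : (0 : ℝ) < ((2 : ℝ) ^ ε) ^ n := by positivity
  rw [div_lt_iff₀ hpos] at hn
  have e : ((2 : ℝ) ^ ε) ^ n = 2 ^ (ε * n) := by
    rw [Real.rpow_mul (by norm_num), Real.rpow_natCast]
  rw [← e]
  calc ((n : ℝ) + 1) ^ k ≤ (2 * n) ^ k := pow_le_pow_left₀ (by linarith) (by linarith) k
    _ = 2 ^ k * (n : ℝ) ^ k := mul_pow _ _ _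
    _ ≤ 2 ^ k * ((1 / 2) ^ k * ((2 : ℝ) ^ ε) ^ n) := mul_le_mul_of_nonneg_left hn.le (by positivity)
    _ = ((2 : ℝ) ^ ε) ^ n := by
        rw [← mul_assoc, ← mul_pow]
        norm_num

/-- the explicit inequality in every dimension -/
theorem explicit {m n : ℕ} {s t lam : ℝ} (hm : 1 ≤ m) (hn : 1 ≤ n) (h0 : 0 ≤ s) (hst : s < t) (h1 : t < 1)
    (hl0 : 0 < lam) (hl1 : lam < 1) :
    (A n s : ℝ) * lam ^ ⌊100 * n / ((t - s) ^ 2 * m)⌋₊ ≤
      ((1 + lam) / (1 - lam)) ^ n * ((n : ℝ) + 1) ^ (2 * m + 1) * B m n t := by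
  obtain ⟨C, hC, hCc⟩ := exists_max n h0 (hst.trans h1)
  have hd : 0 < t - s := by linarith
  have hm0 : (0 : ℝ) < m := by exact_mod_cast hm
  have e : 4 * (n : ℝ) / (((t - s) / 5) ^ 2 * m) = 100 * n / ((t - s) ^ 2 * m) := by
    field_simp
    ring
  have h := core hn hm h0 hst h1 hC hl0 hl1 (M := ⌊100 * n / ((t - s) ^ 2 * m)⌋₊) (fun k hk => by
    rw [e] at hk
    exact Nat.le_floor hk)
  rw [hCc] at h
  exact h

/-- **up to an exponential factor with small exponent the largest codes lie in one orbit** -/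
theorem orbit_asym {s t lam : ℝ} {m : ℕ} (hm1 : 1 ≤ m) (h0 : 0 ≤ s) (hst : s < t) (h1 : t < 1)
    (hl0 : 0 < lam) (hl1 : lam < 1) {η : ℝ} (hη : 0 < η) :
    ∀ᶠ n : ℕ in atTop, (A n s : ℝ) ≤
      2 ^ ((100 / ((t - s) ^ 2 * m) * Real.logb 2 (1 / lam) + Real.logb 2 ((1 + lam) / (1 - lam)) + η) * n) *
        B m n t := by
  obtain ⟨κ, hκ⟩ : ∃ κ, κ = Real.logb 2 (1 / lam) := ⟨_, rfl⟩
  have hκ0 : 0 < κ := by
    rw [hκ]
    exact Real.logb_pos (by norm_num) (by rw [lt_div_iff₀ hl0]; linarith)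
  have hlam : lam = (2 : ℝ) ^ (-κ) := by
    rw [hκ, Real.rpow_neg (by norm_num), Real.rpow_logb (by norm_num) (by norm_num) (by positivity)]
    rw [one_div, inv_inv]
  have hd : 0 < t - s := by linarith
  have hm0 : (0 : ℝ) < m := by exact_mod_cast hm1
  have hq0 : 0 < (1 + lam) / (1 - lam) := div_pos (by linarith) (by linarith)
  obtain ⟨α, hα⟩ : ∃ α, α = 100 / ((t - s) ^ 2 * m) := ⟨_, rfl⟩
  obtain ⟨β, hβ⟩ : ∃ β, β = Real.logb 2 ((1 + lam) / (1 - lam)) := ⟨_, rfl⟩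
  rw [← hκ, ← hα, ← hβ]
  have hα0 : 0 < α := by rw [hα]; positivity
  have hqβ : (1 + lam) / (1 - lam) = (2 : ℝ) ^ β := by
    rw [hβ, Real.rpow_logb (by norm_num) (by norm_num) hq0]
  filter_upwards [poly_le (2 * m + 1) hη, eventually_ge_atTop 1] with n hn hn1
  have hn0 : (0 : ℝ) < n := by exact_mod_cast hn1
  have hcore := explicit hm1 hn1 h0 hst h1 hl0 hl1
  obtain ⟨M, hM⟩ : ∃ M, M = ⌊100 * n / ((t - s) ^ 2 * m)⌋₊ := ⟨_, rfl⟩
  rw [← hM] at hcore
  have hMle : (M : ℝ) ≤ α * n := by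
    rw [hM]
    refine (Nat.floor_le (by positivity)).trans (le_of_eq ?_)
    rw [hα]
    ring
  have hlM : (2 : ℝ) ^ (-(α * κ * n)) ≤ lam ^ M := by
    rw [hlam, ← Real.rpow_natCast, ← Real.rpow_mul (by norm_num)]
    apply Real.rpow_le_rpow_of_exponent_le (by norm_num)
    have := mul_le_mul_of_nonneg_left hMle hκ0.le
    nlinarith
  have hq : ((1 + lam) / (1 - lam)) ^ n = 2 ^ (β * n) := by
    rw [hqβ, Real.rpow_mul (by norm_num), Real.rpow_natCast]
  have hA0 : (0 : ℝ) ≤ A n s := Nat.cast_nonneg _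
  have hB0 : (0 : ℝ) ≤ B m n t := Nat.cast_nonneg _
  have h5 : (A n s : ℝ) * 2 ^ (-(α * κ * n)) ≤ 2 ^ (β * n) * 2 ^ (η * n) * B m n t := by
    calc (A n s : ℝ) * 2 ^ (-(α * κ * n)) ≤ A n s * lam ^ M := mul_le_mul_of_nonneg_left hlM hA0
      _ ≤ ((1 + lam) / (1 - lam)) ^ n * ((n : ℝ) + 1) ^ (2 * m + 1) * B m n t := hcore
      _ ≤ 2 ^ (β * n) * 2 ^ (η * n) * B m n t := by
          apply mul_le_mul_of_nonneg_right _ hB0
          rw [hq]
          exact mul_le_mul_of_nonneg_left hn (by positivity)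
  calc (A n s : ℝ) = (A n s : ℝ) * 2 ^ (-(α * κ * n)) * 2 ^ (α * κ * n) := by
        rw [mul_assoc, ← Real.rpow_add (by norm_num)]
        simp
    _ ≤ 2 ^ (β * n) * 2 ^ (η * n) * B m n t * 2 ^ (α * κ * n) :=
        mul_le_mul_of_nonneg_right h5 (by positivity)
    _ = (2 ^ (α * κ * n) * 2 ^ (β * n) * 2 ^ (η * n)) * B m n t := by ring
    _ = 2 ^ ((α * κ + β + η) * n) * B m n t := by
        rw [← Real.rpow_add (by norm_num), ← Real.rpow_add (by norm_num)]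
        congr 2
        ring

/-- the rates of the codes in orbits -/
noncomputable def Bsup (m : ℕ) (s : ℝ) : ℝ := limsup (fun n : ℕ => Real.logb 2 (B m n s) / n) atTop

noncomputable def Binf (m : ℕ) (s : ℝ) : ℝ := liminf (fun n : ℕ => Real.logb 2 (B m n s) / n) atTop

section
variable {m : ℕ} {s : ℝ} (h0 : 0 ≤ s) (h1 : s < 1) (hm : 1 ≤ m)
include h0 h1 hm

lemma b_nonneg (n : ℕ) : 0 ≤ Real.logb 2 (B m n s) / n := by
  rcases Nat.eq_zero_or_pos n with h | h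
  · subst h; simp
  · exact div_nonneg (Real.logb_nonneg (by norm_num) (by exact_mod_cast B_pos hm h h0 h1)) (Nat.cast_nonneg n)

lemma b_le (n : ℕ) : Real.logb 2 (B m n s) / n ≤ Real.logb 2 (A n s) / n := by
  rcases Nat.eq_zero_or_pos n with h | h
  · subst h; simp
  · have h2 : (0 : ℝ) < B m n s := by exact_mod_cast B_pos hm h h0 h1
    apply div_le_div_of_nonneg_right _ (Nat.cast_nonneg n)
    exact Real.logb_le_logb_of_le (by norm_num) h2 (by exact_mod_cast B_le_A m n h0 h1)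

lemma b_bddA : IsBoundedUnder (· ≤ ·) atTop (fun n : ℕ => Real.logb 2 (B m n s) / n) :=
  isBoundedUnder_of ⟨_, fun n => (b_le h0 h1 hm n).trans (r_le h0 h1 n)⟩

lemma b_bddB : IsBoundedUnder (· ≥ ·) atTop (fun n : ℕ => Real.logb 2 (B m n s) / n) :=
  isBoundedUnder_of ⟨_, b_nonneg h0 h1 hm⟩

lemma Bsup_le : Bsup m s ≤ Rsup s ∧ Binf m s ≤ Rinf s :=
  ⟨limsup_le_limsup (Eventually.of_forall (b_le h0 h1 hm)) (b_bddB h0 h1 hm).isCoboundedUnder_le (bddA h0 h1),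
    liminf_le_liminf (Eventually.of_forall (b_le h0 h1 hm)) (b_bddB h0 h1 hm) (bddA h0 h1).isCoboundedUnder_ge⟩

/-- from an inequality to the rates -/
lemma rates_of {t η : ℝ} (ht0 : 0 ≤ t) (ht1 : t < 1)
    (h : ∀ᶠ n : ℕ in atTop, (A n t : ℝ) ≤ 2 ^ (η * n) * B m n s) :
    Rsup t ≤ η + Bsup m s ∧ Rinf t ≤ η + Binf m s := by
  have hev : ∀ᶠ n : ℕ in atTop, Real.logb 2 (A n t) / n ≤ η + Real.logb 2 (B m n s) / n := by
    filter_upwards [h, eventually_ge_atTop 1] with n hn hn1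
    have hn0 : (0 : ℝ) < n := by exact_mod_cast hn1
    have hB : (0 : ℝ) < B m n s := by exact_mod_cast B_pos hm hn1 h0 h1
    have hA : (0 : ℝ) < A n t := by exact_mod_cast A_pos hn1 ht0 ht1
    have h2 := Real.logb_le_logb_of_le (b := 2) (by norm_num) hA hn
    rw [Real.logb_mul (by positivity) hB.ne', Real.logb_rpow (by norm_num) (by norm_num)] at h2
    rw [div_le_iff₀ hn0, add_mul, div_mul_cancel₀ _ hn0.ne']
    exact h2
  have hb1 : IsBoundedUnder (· ≤ ·) atTop (fun n : ℕ => η + Real.logb 2 (B m n s) / n) := by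
    obtain ⟨b, hb⟩ := b_bddA h0 h1 hm
    refine ⟨η + b, ?_⟩
    rw [eventually_map] at hb ⊢
    filter_upwards [hb] with n hn
    linarith
  constructor
  · unfold Rsup Bsup
    rw [← limsup_const_add atTop _ η (b_bddA h0 h1 hm) (b_bddB h0 h1 hm).isCoboundedUnder_le]
    exact limsup_le_limsup hev (bddB ht0 ht1).isCoboundedUnder_le hb1
  · unfold Rinf Binf
    rw [← liminf_const_add atTop _ η (b_bddA h0 h1 hm).isCoboundedUnder_ge (b_bddB h0 h1 hm)]
    exact liminf_le_liminf hev (bddB ht0 ht1) hb1.isCoboundedUnder_ge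

end

lemma logb_two_le {x : ℝ} (hx : 0 < x) : Real.logb 2 x ≤ 2 * (x - 1) ∨ x < 1 := by
  rcases lt_or_ge x 1 with h | h
  · exact Or.inr h
  · left
    have h1 := Real.log_le_sub_one_of_pos hx
    have h2 : (1 : ℝ) / 2 ≤ Real.log 2 := by linarith [Real.log_two_gt_d9]
    unfold Real.logb
    rw [div_le_iff₀ (by linarith)]
    nlinarith

/-- the inequality for the rates -/
theorem rate_ineq {s t lam : ℝ} {m : ℕ} (hm : 1 ≤ m) (h0 : 0 ≤ s) (hst : s < t) (h1 : t < 1)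
    (hl0 : 0 < lam) (hl1 : lam < 1) :
    Rsup s ≤ 100 / ((t - s) ^ 2 * m) * Real.logb 2 (1 / lam) + Real.logb 2 ((1 + lam) / (1 - lam)) + Bsup m t ∧
    Rinf s ≤ 100 / ((t - s) ^ 2 * m) * Real.logb 2 (1 / lam) + Real.logb 2 ((1 + lam) / (1 - lam)) + Binf m t := by
  have key : ∀ η : ℝ, 0 < η →
      Rsup s ≤ 100 / ((t - s) ^ 2 * m) * Real.logb 2 (1 / lam) + Real.logb 2 ((1 + lam) / (1 - lam)) + η + Bsup m t ∧
      Rinf s ≤ 100 / ((t - s) ^ 2 * m) * Real.logb 2 (1 / lam) + Real.logb 2 ((1 + lam) / (1 - lam)) + η + Binf m t :=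
    fun η hη => rates_of (h0.trans hst.le) h1 hm h0 (hst.trans h1) (orbit_asym hm h0 hst h1 hl0 hl1 hη)
  constructor
  · apply le_of_forall_pos_le_add
    intro η hη
    linarith [(key η hη).1]
  · apply le_of_forall_pos_le_add
    intro η hη
    linarith [(key η hη).2]

/-- **the rates of the spherical codes are up to `O (m ^ (-1/4))` the rates of the codes in orbits of
integer vectors with entries in `[-m, m]`** -/
theorem orbit_rate {s : ℝ} (h0 : 0 < s) (h1 : s < 1) : ∃ c : ℝ, ∀ m : ℕ, 1 ≤ m →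
    (Bsup m s ≤ Rsup s ∧ Rsup s ≤ Bsup m s + c / (m : ℝ) ^ (1 / 4 : ℝ)) ∧
    (Binf m s ≤ Rinf s ∧ Rinf s ≤ Binf m s + c / (m : ℝ) ^ (1 / 4 : ℝ)) := by
  obtain ⟨K, hK, hlip⟩ := lip s h0.le h1
  refine ⟨K * s + 300 / s ^ 2 + 4, ?_⟩
  intro m hm
  obtain ⟨e5, e6⟩ := Bsup_le h0.le h1 hm
  have hm1 : (1 : ℝ) ≤ m := by exact_mod_cast hm
  have hm0 : (0 : ℝ) < m := by linarith
  obtain ⟨a, ha⟩ : ∃ a, a = (m : ℝ) ^ (1 / 4 : ℝ) := ⟨_, rfl⟩
  have ha1 : 1 ≤ a := by rw [ha]; exact Real.one_le_rpow hm1 (by norm_num)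
  have ha0 : 0 < a := by linarith
  have ha4 : a ^ 4 = m := by
    rw [ha, ← Real.rpow_natCast, ← Real.rpow_mul hm0.le]
    norm_num
  rw [← ha]
  have hs' : 0 ≤ s - s / a := by
    have : s / a ≤ s := div_le_self h0.le ha1
    linarith
  have hlt : s - s / a < s := by
    have : 0 < s / a := by positivity
    linarith
  have hl0 : 0 < 1 / (2 * a) := by positivity
  have hl1 : 1 / (2 * a) ≤ 1 / 2 := by
    rw [div_le_div_iff₀ (by positivity) (by norm_num)]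
    linarith
  obtain ⟨r1, r2⟩ := rate_ineq hm hs' hlt h1 hl0 (by linarith : 1 / (2 * a) < 1)
  obtain ⟨e3, e4⟩ := hlip (s - s / a) s hs' hlt.le le_rfl
  have t1 : 100 / ((s - (s - s / a)) ^ 2 * m) * Real.logb 2 (1 / (1 / (2 * a))) ≤ 300 / s ^ 2 / a := by
    have e : (s - (s - s / a)) ^ 2 * m = s ^ 2 * a ^ 2 := by
      rw [← ha4]
      field_simp
      ring
    rw [e, one_div_one_div]
    have h2 : Real.logb 2 (2 * a) ≤ 3 * a := by
      rw [Real.logb_mul (by norm_num) ha0.ne', Real.logb_self_eq_one (by norm_num)]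
      rcases logb_two_le ha0 with h | h
      · linarith
      · linarith
    calc 100 / (s ^ 2 * a ^ 2) * Real.logb 2 (2 * a) ≤ 100 / (s ^ 2 * a ^ 2) * (3 * a) :=
          mul_le_mul_of_nonneg_left h2 (by positivity)
      _ = 300 / s ^ 2 / a := by field_simp; ring
  have t2 : Real.logb 2 ((1 + 1 / (2 * a)) / (1 - 1 / (2 * a))) ≤ 4 / a := by
    have hp : 0 < 1 - 1 / (2 * a) := by linarith
    have h3 : (1 + 1 / (2 * a)) / (1 - 1 / (2 * a)) ≤ 1 + 4 * (1 / (2 * a)) := by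
      rw [div_le_iff₀ hp]
      nlinarith
    have h4 : 0 < (1 + 1 / (2 * a)) / (1 - 1 / (2 * a)) := by positivity
    have h5 := Real.logb_le_logb_of_le (b := 2) (by norm_num) h4 h3
    rcases logb_two_le (show 0 < 1 + 4 * (1 / (2 * a)) by positivity) with h | h
    · have e : 2 * (1 + 4 * (1 / (2 * a)) - 1) = 4 / a := by field_simp; ring
      linarith
    · linarith
  have t3 : K * (s - (s - s / a)) = K * s / a := by ring
  have t4 : (K * s + 300 / s ^ 2 + 4) / a = K * s / a + 300 / s ^ 2 / a + 4 / a := by ring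
  rw [t3] at e3 e4
  rw [t4]
  exact ⟨⟨e5, by linarith⟩, ⟨e6, by linarith⟩⟩

end Pool.Agent.E8helper70.Sph
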