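import Pool.Agent.E8helper70.Sph.Iso
import Pool.Agent.E8helper70.Sph.OrbCount

/-!
# Codes in orbits of bounded integer vectors under the permutations of the coordinates
-/

set_option autoImplicit false

open Finset Filter Topology

namespace Pool.Agent.E8helper70.Sph

/-- a code inside the orbit of an integer vector with entries in `[-m, m]` -/
def IsOrb (m n : ℕ) (s : ℝ) (W : Finset (Fin n → ℤ)) : Prop :=
  ∃ v : Fin n → ℤ, v ≠ 0 ∧ (∀ i, |v i| ≤ m) ∧ (∀ w ∈ W, ∃ σ : Equiv.Perm (Fin n), w = v ∘ σ) ∧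
    ∀ w ∈ W, ∀ w' ∈ W, w ≠ w' → ((∑ i, w i * w' i : ℤ) : ℝ) ≤ s * ((∑ i, v i ^ 2 : ℤ) : ℝ)

/-- the largest size of such a code -/
noncomputable def B (m n : ℕ) (s : ℝ) : ℕ :=
  sSup {k | ∃ W : Finset (Fin n → ℤ), IsOrb m n s W ∧ W.card = k}

lemma sum_sq_pos {n : ℕ} {v : Fin n → ℤ} (hv : v ≠ 0) : 0 < ∑ i, v i ^ 2 := by
  obtain ⟨i, hi⟩ := Function.ne_iff.1 hv
  exact sum_pos' (fun i _ => sq_nonneg _) ⟨i, mem_univ i, by simpa using sq_pos_of_ne_zero hi⟩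

lemma orb_le_A {m n : ℕ} {s : ℝ} (h0 : 0 ≤ s) (h1 : s < 1) {W : Finset (Fin n → ℤ)} (hW : IsOrb m n s W) :
    W.card ≤ A n s := by
  classical
  obtain ⟨v, hv, -, hp, hi⟩ := hW
  have hN : (0 : ℝ) < ((∑ i, v i ^ 2 : ℤ) : ℝ) := by exact_mod_cast sum_sq_pos hv
  set N : ℝ := ((∑ i, v i ^ 2 : ℤ) : ℝ) with hNdef
  have hsq : 0 < √N := Real.sqrt_pos.2 hN
  let f : (Fin n → ℤ) → EuclideanSpace ℝ (Fin n) := fun w => WithLp.toLp 2 (fun i => (w i : ℝ) / √N)
  have hf : Function.Injective f := by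
    intro w w' h
    funext i
    have h2 := congrArg (fun x : EuclideanSpace ℝ (Fin n) => x i) h
    simp only [f] at h2
    rw [div_left_inj' hsq.ne'] at h2
    exact_mod_cast h2
  have hin : ∀ w w' : Fin n → ℤ, inner ℝ (f w) (f w') = ((∑ i, w i * w' i : ℤ) : ℝ) / N := by
    intro w w'
    rw [PiLp.inner_apply]
    push_cast
    rw [sum_div]
    apply sum_congr rfl
    intro i _
    simp only [f, RCLike.inner_apply, conj_trivial]
    rw [div_mul_div_comm, Real.mul_self_sqrt hN.le]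
    ring
  rw [← card_image_of_injective W hf]
  apply le_A h0 h1
  constructor
  · intro x hx
    obtain ⟨w, hw, rfl⟩ := mem_image.1 hx
    obtain ⟨σ, rfl⟩ := hp w hw
    have h2 : ‖f (v ∘ σ)‖ ^ 2 = 1 := by
      rw [← real_inner_self_eq_norm_sq, hin]
      have e : (∑ i, (v ∘ σ) i * (v ∘ σ) i) = ∑ i, v i ^ 2 := by
        simp only [Function.comp]
        rw [← Equiv.sum_comp σ (fun i => v i ^ 2)]
        exact sum_congr rfl (fun i _ => by ring)
      rw [e, ← hNdef, div_self hN.ne']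
    nlinarith [norm_nonneg (f (v ∘ σ))]
  · intro x hx y hy hxy
    obtain ⟨w, hw, rfl⟩ := mem_image.1 hx
    obtain ⟨w', hw', rfl⟩ := mem_image.1 hy
    rw [hin, div_le_iff₀ hN]
    exact hi w hw w' hw' (fun h => hxy (by rw [h]))

lemma B_bdd (m n : ℕ) {s : ℝ} (h0 : 0 ≤ s) (h1 : s < 1) :
    BddAbove {k | ∃ W : Finset (Fin n → ℤ), IsOrb m n s W ∧ W.card = k} := by
  refine ⟨A n s, ?_⟩
  rintro k ⟨W, hW, rfl⟩
  exact orb_le_A h0 h1 hW

lemma le_B {m n : ℕ} {s : ℝ} (h0 : 0 ≤ s) (h1 : s < 1) {W : Finset (Fin n → ℤ)} (hW : IsOrb m n s W) :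
    W.card ≤ B m n s := le_csSup (B_bdd m n h0 h1) ⟨W, hW, rfl⟩

lemma B_le_A (m n : ℕ) {s : ℝ} (h0 : 0 ≤ s) (h1 : s < 1) : B m n s ≤ A n s := by
  unfold B
  rcases Set.eq_empty_or_nonempty {k | ∃ W : Finset (Fin n → ℤ), IsOrb m n s W ∧ W.card = k} with h | h
  · rw [h]
    simp
  · apply csSup_le h
    rintro k ⟨W, hW, rfl⟩
    exact orb_le_A h0 h1 hW

lemma B_pos {m n : ℕ} (hm : 1 ≤ m) (hn : 1 ≤ n) {s : ℝ} (h0 : 0 ≤ s) (h1 : s < 1) : 1 ≤ B m n s := by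
  have i0 : Fin n := ⟨0, hn⟩
  have h : IsOrb m n s {fun _ => 1} := by
    refine ⟨fun _ => 1, ?_, ?_, ?_, ?_⟩
    · intro h
      exact one_ne_zero (congrFun h i0)
    · intro i
      simpa using hm
    · intro w hw
      rw [mem_singleton] at hw
      exact ⟨1, by rw [hw]; rfl⟩
    · intro w hw w' hw' hne
      rw [mem_singleton] at hw hw'
      exact absurd (hw.trans hw'.symm) hne
  have := le_B h0 h1 h
  simpa using this

/-- the integer part of `x` at the scale `h` -/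
noncomputable def rd {n : ℕ} (h : ℝ) (x : EuclideanSpace ℝ (Fin n)) : Fin n → ℤ := fun i => ⌊x i / h⌋

/-- the small entries -/
def sm {n : ℕ} (m : ℕ) (r : Fin n → ℤ) : Fin n → ℤ := fun i => if |r i| ≤ m then r i else 0

/-- the large entries -/
def lg {n : ℕ} (m : ℕ) (r : Fin n → ℤ) : Fin n → ℤ := fun i => if |r i| ≤ m then 0 else r i

lemma sm_le {n : ℕ} (m : ℕ) (r : Fin n → ℤ) (i : Fin n) : |sm m r i| ≤ m := by
  unfold sm
  split_ifs with h
  · exact h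
  · simp

lemma mul_lg {n : ℕ} {m : ℕ} {r r' : Fin n → ℤ} (h : lg m r = lg m r') (i : Fin n) :
    r i * r' i = sm m r i * sm m r' i + lg m r i ^ 2 := by
  have h2 := congrFun h i
  unfold lg at h2
  unfold lg sm
  by_cases h3 : |r i| ≤ m
  · rw [if_pos h3] at h2 ⊢
    rw [if_pos h3]
    by_cases h4 : |r' i| ≤ m
    · rw [if_pos h4]; ring
    · rw [if_neg h4] at h2 ⊢
      rw [← h2]; ring
  · rw [if_neg h3] at h2 ⊢
    rw [if_neg h3]
    by_cases h4 : |r' i| ≤ m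
    · rw [if_pos h4] at h2
      rw [h2] at h3
      simp at h3
    · rw [if_neg h4] at h2 ⊢
      rw [← h2]; ring

lemma lg_abs {n : ℕ} (m : ℕ) (r : Fin n → ℤ) (i : Fin n) : (m : ℤ) * (lg m r i).natAbs ≤ r i ^ 2 := by
  unfold lg
  split_ifs with h
  · simp only [Int.natAbs_zero, Nat.cast_zero, mul_zero]
    positivity
  · rw [Int.natCast_natAbs, ← sq_abs]
    rw [not_le] at h
    have : 0 ≤ |r i| := abs_nonneg _
    nlinarith

lemma rd_close {n : ℕ} {h δ : ℝ} (hh : 0 < h) (hδ : 0 ≤ δ) (hn : (n : ℝ) * h ^ 2 ≤ δ ^ 2)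
    (x : EuclideanSpace ℝ (Fin n)) :
    ‖(WithLp.toLp 2 (fun i => h * (rd h x i : ℝ)) : EuclideanSpace ℝ (Fin n)) - x‖ ≤ δ := by
  have h2 : ‖(WithLp.toLp 2 (fun i => h * (rd h x i : ℝ)) : EuclideanSpace ℝ (Fin n)) - x‖ ^ 2 ≤ δ ^ 2 := by
    rw [norm_sq_coord]
    refine le_trans ?_ hn
    calc ∑ i, ((WithLp.toLp 2 (fun i => h * (rd h x i : ℝ)) : EuclideanSpace ℝ (Fin n)) - x) i ^ 2
        ≤ ∑ _i : Fin n, h ^ 2 := by
          apply sum_le_sum
          intro i _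
          simp only [PiLp.sub_apply, rd]
          have h3 := Int.floor_le (x i / h)
          have h4 := Int.lt_floor_add_one (x i / h)
          rw [le_div_iff₀ hh] at h3
          rw [div_lt_iff₀ hh] at h4
          nlinarith
      _ = n * h ^ 2 := by rw [sum_const, card_univ, Fintype.card_fin, nsmul_eq_mul]
  exact le_of_sq_le_sq h2 hδ

lemma inner_rd {n : ℕ} (h : ℝ) (x y : EuclideanSpace ℝ (Fin n)) :
    inner ℝ (WithLp.toLp 2 (fun i => h * (rd h x i : ℝ)) : EuclideanSpace ℝ (Fin n))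
      (WithLp.toLp 2 (fun i => h * (rd h y i : ℝ)) : EuclideanSpace ℝ (Fin n)) =
      h ^ 2 * ((∑ i, rd h x i * rd h y i : ℤ) : ℝ) := by
  rw [PiLp.inner_apply]
  push_cast
  rw [mul_sum]
  apply sum_congr rfl
  intro i _
  simp only [RCLike.inner_apply, conj_trivial]
  ring

/-- the three estimates for the rounded vectors -/
lemma rd_ineq {n : ℕ} {h δ : ℝ} (hh : 0 < h) (hδ : 0 ≤ δ) (hδ1 : δ ≤ 1) (hn : (n : ℝ) * h ^ 2 ≤ δ ^ 2)
    {x y : EuclideanSpace ℝ (Fin n)} (hx : ‖x‖ = 1) (hy : ‖y‖ = 1) :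
    h ^ 2 * ((∑ i, rd h x i * rd h y i : ℤ) : ℝ) ≤ inner ℝ x y + 3 * δ ∧
    1 - 2 * δ ≤ h ^ 2 * ((∑ i, rd h x i * rd h x i : ℤ) : ℝ) ∧
    h ^ 2 * ((∑ i, rd h x i * rd h x i : ℤ) : ℝ) ≤ 4 := by
  set X : EuclideanSpace ℝ (Fin n) := WithLp.toLp 2 (fun i => h * (rd h x i : ℝ)) with hX
  set Y : EuclideanSpace ℝ (Fin n) := WithLp.toLp 2 (fun i => h * (rd h y i : ℝ)) with hY
  have h1 : ‖X - x‖ ≤ δ := rd_close hh hδ hn x
  have h2 : ‖Y - y‖ ≤ δ := rd_close hh hδ hn y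
  have hXn : ‖X‖ ≤ 1 + δ := by
    have := norm_add_le (X - x) x
    rw [sub_add_cancel, hx] at this
    linarith
  have hXl : 1 - δ ≤ ‖X‖ := by
    have := norm_sub_norm_le x X
    rw [norm_sub_rev] at this
    linarith
  have hX0 := norm_nonneg X
  refine ⟨?_, ?_, ?_⟩
  · rw [← inner_rd, ← hX, ← hY]
    have e : inner ℝ X Y = inner ℝ x y + inner ℝ (X - x) y + inner ℝ X (Y - y) := by
      rw [inner_sub_left, inner_sub_right]; ring
    have h3 : inner ℝ (X - x) y ≤ δ * 1 := by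
      refine (real_inner_le_norm _ _).trans ?_
      rw [hy]
      linarith
    have h4 : inner ℝ X (Y - y) ≤ 2 * δ := by
      refine (real_inner_le_norm _ _).trans ?_
      have := norm_nonneg (Y - y)
      nlinarith
    rw [e]
    linarith
  · rw [← inner_rd, ← hX, real_inner_self_eq_norm_sq]
    nlinarith
  · rw [← inner_rd, ← hX, real_inner_self_eq_norm_sq]
    nlinarith

/-- **the number of points of a code is at most the number of the classes times the largest size of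
a code in an orbit** -/
theorem core {n m : ℕ} (hn : 1 ≤ n) (hm : 1 ≤ m) {s t : ℝ} (h0 : 0 ≤ s) (hst : s < t) (h1 : t < 1)
    {C : Finset (EuclideanSpace ℝ (Fin n))} (hC : IsCode n s C) {lam : ℝ} (hl0 : 0 < lam) (hl1 : lam < 1)
    {M : ℕ} (hM : ∀ k : ℕ, (k : ℝ) ≤ 4 * n / (((t - s) / 5) ^ 2 * m) → k ≤ M) :
    (C.card : ℝ) * lam ^ M ≤ ((1 + lam) / (1 - lam)) ^ n * ((n : ℝ) + 1) ^ (2 * m + 1) * B m n t := by
  classical
  have ht0 : 0 ≤ t := h0.trans hst.le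
  obtain ⟨δ, hδ⟩ : ∃ δ, δ = (t - s) / 5 := ⟨_, rfl⟩
  rw [← hδ] at hM
  have hδ0 : 0 < δ := by rw [hδ]; linarith
  have hδ1 : δ ≤ 1 := by rw [hδ]; linarith
  have hn0 : (0 : ℝ) < n := by exact_mod_cast hn
  have hm0 : (0 : ℝ) < m := by exact_mod_cast hm
  obtain ⟨h, hh⟩ : ∃ h, h = δ / √n := ⟨_, rfl⟩
  have hh0 : 0 < h := by rw [hh]; exact div_pos hδ0 (Real.sqrt_pos.2 hn0)
  have hh2 : (n : ℝ) * h ^ 2 = δ ^ 2 := by
    rw [hh, div_pow, Real.sq_sqrt hn0.le]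
    field_simp
  have hh3 : 0 < h ^ 2 := by positivity
  have I1 : ∀ x ∈ C, ∀ y ∈ C, x ≠ y → h ^ 2 * ((∑ i, rd h x i * rd h y i : ℤ) : ℝ) ≤ s + 3 * δ := by
    intro x hx y hy hxy
    have := (rd_ineq hh0 hδ0.le hδ1 hh2.le (hC.1 x hx) (hC.1 y hy)).1
    have := hC.2 x hx y hy hxy
    linarith
  have I2 : ∀ x ∈ C, 1 - 2 * δ ≤ h ^ 2 * ((∑ i, rd h x i * rd h x i : ℤ) : ℝ) := fun x hx =>
    (rd_ineq hh0 hδ0.le hδ1 hh2.le (hC.1 x hx) (hC.1 x hx)).2.1
  have I3 : ∀ x ∈ C, h ^ 2 * ((∑ i, rd h x i * rd h x i : ℤ) : ℝ) ≤ 4 := fun x hx =>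
    (rd_ineq hh0 hδ0.le hδ1 hh2.le (hC.1 x hx) (hC.1 x hx)).2.2
  set z : EuclideanSpace ℝ (Fin n) → (Fin n → ℤ) := fun x => lg m (rd h x) with hz
  set u : EuclideanSpace ℝ (Fin n) → (Fin n → ℤ) := fun x => sm m (rd h x) with hu
  -- the classes
  have hZ : ((C.image z).card : ℝ) * lam ^ M ≤ ((1 + lam) / (1 - lam)) ^ n := by
    apply card_l1 hl0 hl1 M
    intro w hw
    obtain ⟨x, hx, rfl⟩ := mem_image.1 hw
    apply hM
    rw [le_div_iff₀ (by positivity)]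
    have h3 : (m : ℝ) * ((∑ i, (z x i).natAbs : ℕ) : ℝ) ≤ ((∑ i, rd h x i * rd h x i : ℤ) : ℝ) := by
      have : (m : ℤ) * ((∑ i, (z x i).natAbs : ℕ) : ℤ) ≤ ∑ i, rd h x i * rd h x i := by
        push_cast
        rw [mul_sum]
        apply sum_le_sum
        intro i _
        have := lg_abs m (rd h x) i
        rw [Int.natCast_natAbs] at this
        rw [← sq]
        exact this
      have h6 : (((m : ℤ) * ((∑ i, (z x i).natAbs : ℕ) : ℤ) : ℤ) : ℝ) ≤
          ((∑ i, rd h x i * rd h x i : ℤ) : ℝ) := Int.cast_le.2 this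
      rw [Int.cast_mul, Int.cast_natCast, Int.cast_natCast] at h6
      exact h6
    have h4 := I3 x hx
    have h5 : (((∑ i, (z x i).natAbs : ℕ) : ℝ)) * (δ ^ 2 * m) = (n * h ^ 2) * ((m : ℝ) * ((∑ i, (z x i).natAbs : ℕ) : ℝ)) := by
      rw [hh2]; ring
    rw [h5]
    calc (n * h ^ 2) * ((m : ℝ) * ((∑ i, (z x i).natAbs : ℕ) : ℝ))
        ≤ (n * h ^ 2) * ((∑ i, rd h x i * rd h x i : ℤ) : ℝ) := mul_le_mul_of_nonneg_left h3 (by positivity)
      _ = n * (h ^ 2 * ((∑ i, rd h x i * rd h x i : ℤ) : ℝ)) := by ring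
      _ ≤ n * 4 := mul_le_mul_of_nonneg_left h4 hn0.le
      _ = 4 * n := by ring
  set Φ : EuclideanSpace ℝ (Fin n) → (Fin n → ℤ) × (Fin (2 * m + 1) → ℕ) := fun x => (z x, comp m (u x)) with hΦ
  have himg : (C.image Φ).card ≤ (C.image z).card * (n + 1) ^ (2 * m + 1) := by
    rw [← card_comps n m, ← card_product]
    apply card_le_card
    intro b hb
    obtain ⟨x, hx, rfl⟩ := mem_image.1 hb
    rw [mem_product]
    exact ⟨mem_image_of_mem z hx, comp_mem m (u x)⟩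
  -- the fibres
  have hfib : ∀ b ∈ C.image Φ, (C.filter (fun x => Φ x = b)).card ≤ B m n t := by
    intro b _
    set F := C.filter (fun x => Φ x = b) with hF
    by_cases hF1 : F.card ≤ 1
    · exact hF1.trans (B_pos hm hn ht0 h1)
    rw [not_le] at hF1
    obtain ⟨x₀, hx₀, y₀, hy₀, hne⟩ := one_lt_card.1 hF1
    have hFC : ∀ x ∈ F, x ∈ C := fun x hx => (mem_filter.1 hx).1
    have hFz : ∀ x ∈ F, ∀ y ∈ F, z x = z y := fun x hx y hy => by
      have e1 := (mem_filter.1 hx).2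
      have e2 := (mem_filter.1 hy).2
      exact congrArg Prod.fst (e1.trans e2.symm)
    have hFc : ∀ x ∈ F, ∀ y ∈ F, comp m (u x) = comp m (u y) := fun x hx y hy => by
      have e1 := (mem_filter.1 hx).2
      have e2 := (mem_filter.1 hy).2
      exact congrArg Prod.snd (e1.trans e2.symm)
    have dec : ∀ x ∈ F, ∀ y ∈ F, ((∑ i, rd h x i * rd h y i : ℤ) : ℝ) =
        ((∑ i, u x i * u y i : ℤ) : ℝ) + ((∑ i, z x i ^ 2 : ℤ) : ℝ) := by
      intro x hx y hy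
      rw [← Int.cast_add, ← sum_add_distrib]
      congr 1
      exact sum_congr rfl (fun i _ => mul_lg (hFz x hx y hy) i)
    have key : ∀ x ∈ F, ∀ y ∈ F, x ≠ y →
        ((∑ i, u x i * u y i : ℤ) : ℝ) < ((∑ i, u x i ^ 2 : ℤ) : ℝ) ∧
        ((∑ i, u x i * u y i : ℤ) : ℝ) ≤ t * ((∑ i, u x i ^ 2 : ℤ) : ℝ) := by
      intro x hx y hy hxy
      have d1 := dec x hx y hy
      have d2 := dec x hx x hx
      have e : ∑ i, u x i * u x i = ∑ i, u x i ^ 2 := sum_congr rfl (fun i _ => (sq _).symm)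
      rw [e] at d2
      have i1 := I1 x (hFC x hx) y (hFC y hy) hxy
      have i2 := I2 x (hFC x hx)
      have hZ0 : (0 : ℝ) ≤ ((∑ i, z x i ^ 2 : ℤ) : ℝ) := by
        exact_mod_cast sum_nonneg (fun i _ => sq_nonneg (z x i))
      rw [d1] at i1
      rw [d2] at i2
      have hts : t = s + 5 * δ := by rw [hδ]; ring
      have hZ1 : 0 ≤ h ^ 2 * ((∑ i, z x i ^ 2 : ℤ) : ℝ) := mul_nonneg hh3.le hZ0
      constructor
      · by_contra hcon
        rw [not_lt] at hcon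
        have := mul_le_mul_of_nonneg_left hcon hh3.le
        nlinarith
      · by_contra hcon
        rw [not_le] at hcon
        have h6 := mul_lt_mul_of_pos_left hcon hh3
        have h7 : t * (1 - 2 * δ) ≤ t * (h ^ 2 * (((∑ i, u x i ^ 2 : ℤ) : ℝ) + ((∑ i, z x i ^ 2 : ℤ) : ℝ))) :=
          mul_le_mul_of_nonneg_left i2 ht0
        have h8 : 0 ≤ (1 - t) * (h ^ 2 * ((∑ i, z x i ^ 2 : ℤ) : ℝ)) := mul_nonneg (by linarith) hZ1
        have h9 : s + 3 * δ ≤ t * (1 - 2 * δ) := by nlinarith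
        nlinarith
    have hinj : Set.InjOn u (F : Set (EuclideanSpace ℝ (Fin n))) := by
      intro x hx y hy hxy
      by_contra hne2
      have h6 := (key x hx y hy hne2).1
      rw [← hxy] at h6
      have e : ∑ i, u x i * u x i = ∑ i, u x i ^ 2 := sum_congr rfl (fun i _ => (sq _).symm)
      rw [e] at h6
      exact lt_irrefl _ h6
    rw [← card_image_of_injOn hinj]
    apply le_B ht0 h1
    have hperm : ∀ x ∈ F, ∃ σ : Equiv.Perm (Fin n), u x = u x₀ ∘ σ := fun x hx =>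
      perm_of_comp (fun i => sm_le m _ i) (fun i => sm_le m _ i) (hFc x hx x₀ hx₀)
    refine ⟨u x₀, ?_, fun i => sm_le m _ i, ?_, ?_⟩
    · intro hzero
      have h6 := (key x₀ hx₀ y₀ hy₀ hne).1
      rw [hzero] at h6
      simp at h6
    · intro w hw
      obtain ⟨x, hx, rfl⟩ := mem_image.1 hw
      exact hperm x hx
    · intro w hw w' hw' hne2
      obtain ⟨x, hx, rfl⟩ := mem_image.1 hw
      obtain ⟨y, hy, rfl⟩ := mem_image.1 hw'
      have h6 := (key x hx y hy (fun h => hne2 (by rw [h]))).2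
      obtain ⟨σ, hσ⟩ := hperm x hx
      have e : ∑ i, u x i ^ 2 = ∑ i, u x₀ i ^ 2 := by
        rw [hσ]
        simp only [Function.comp]
        exact Equiv.sum_comp σ (fun i => u x₀ i ^ 2)
      rw [e] at h6
      exact h6
  have hcard := card_le_mul_card_image (f := Φ) C (B m n t) hfib
  have hB0 : (0 : ℝ) ≤ B m n t := Nat.cast_nonneg _
  have hn1 : (0 : ℝ) ≤ ((n : ℝ) + 1) ^ (2 * m + 1) := by positivity
  calc (C.card : ℝ) * lam ^ M ≤ ((B m n t : ℝ) * (((C.image z).card : ℝ) * ((n : ℝ) + 1) ^ (2 * m + 1))) * lam ^ M := by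
        apply mul_le_mul_of_nonneg_right _ (by positivity)
        have := hcard.trans (Nat.mul_le_mul_left _ himg)
        exact_mod_cast this
    _ = (B m n t : ℝ) * ((n : ℝ) + 1) ^ (2 * m + 1) * (((C.image z).card : ℝ) * lam ^ M) := by ring
    _ ≤ (B m n t : ℝ) * ((n : ℝ) + 1) ^ (2 * m + 1) * ((1 + lam) / (1 - lam)) ^ n :=
        mul_le_mul_of_nonneg_left hZ (by positivity)
    _ = _ := by ring

end Pool.Agent.E8helper70.Sph
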