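import Pool.Agent.E8helper70.Sph.Basic

/-!
# Projections of spherical codes
-/

set_option autoImplicit false

open Finset

namespace Pool.Agent.E8helper70.Sph

variable {n : ℕ}

/-- a set of vectors whose normalised projections form a code in the orthogonal complement of `V` -/
lemma card_of_proj {s : ℝ} (h0 : 0 ≤ s) (h1 : s < 1) (V : Submodule ℝ (EuclideanSpace ℝ (Fin n)))
    (D : Finset (EuclideanSpace ℝ (Fin n))) (hne : ∀ x ∈ D, Vᗮ.starProjection x ≠ 0)
    (h : ∀ x ∈ D, ∀ y ∈ D, x ≠ y → inner ℝ (Vᗮ.starProjection x) (Vᗮ.starProjection y) ≤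
      s * (‖Vᗮ.starProjection x‖ * ‖Vᗮ.starProjection y‖)) :
    D.card ≤ A (n - Module.finrank ℝ V) s := by
  classical
  set P := fun x => Vᗮ.starProjection x with hP
  set f : EuclideanSpace ℝ (Fin n) → EuclideanSpace ℝ (Fin n) := fun x => ‖P x‖⁻¹ • P x with hf
  have hfn : ∀ x ∈ D, ‖f x‖ = 1 := by
    intro x hx
    have : ‖P x‖ ≠ 0 := norm_ne_zero_iff.2 (hne x hx)
    rw [hf]
    simp only
    rw [norm_smul, norm_inv, norm_norm, inv_mul_cancel₀ this]
  have hfi : ∀ x ∈ D, ∀ y ∈ D, x ≠ y → inner ℝ (f x) (f y) ≤ s := by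
    intro x hx y hy hxy
    have hx0 : 0 < ‖P x‖ := norm_pos_iff.2 (hne x hx)
    have hy0 : 0 < ‖P y‖ := norm_pos_iff.2 (hne y hy)
    rw [hf]
    simp only
    rw [inner_smul_left, inner_smul_right]
    simp only [RCLike.conj_to_real]
    have h2 := h x hx y hy hxy
    calc ‖P x‖⁻¹ * (‖P y‖⁻¹ * inner ℝ (P x) (P y)) ≤ ‖P x‖⁻¹ * (‖P y‖⁻¹ * (s * (‖P x‖ * ‖P y‖))) := by
          gcongr
      _ = s := by field_simp
  have hinj : Set.InjOn f D := by
    intro x hx y hy hxy
    by_contra hne'
    have h2 := hfi x hx y hy hne'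
    rw [← hxy, real_inner_self_eq_norm_sq, hfn x hx] at h2
    linarith
  have hcode : IsCode n s (D.image f) := by
    constructor
    · intro u hu
      obtain ⟨x, hx, rfl⟩ := mem_image.1 hu
      exact hfn x hx
    · intro u hu v hv huv
      obtain ⟨x, hx, rfl⟩ := mem_image.1 hu
      obtain ⟨y, hy, rfl⟩ := mem_image.1 hv
      exact hfi x hx y hy (fun hh => huv (by rw [hh]))
  have h3 := card_sub h0 h1 hcode Vᗮ (by
    intro u hu
    obtain ⟨x, hx, rfl⟩ := mem_image.1 hu
    exact Submodule.smul_mem _ _ (Submodule.starProjection_apply_mem _ _))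
  rw [card_image_of_injOn hinj] at h3
  have h4 := Submodule.finrank_add_finrank_orthogonal V
  rw [finrank_euclideanSpace_fin] at h4
  rwa [show Module.finrank ℝ Vᗮ = n - Module.finrank ℝ V by omega] at h3

/-- Pythagoras -/
lemma inner_split (V : Submodule ℝ (EuclideanSpace ℝ (Fin n))) (x y : EuclideanSpace ℝ (Fin n)) :
    inner ℝ x y = inner ℝ (V.starProjection x) (V.starProjection y) +
      inner ℝ (Vᗮ.starProjection x) (Vᗮ.starProjection y) := by
  have hx : x = V.starProjection x + Vᗮ.starProjection x :=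
    (Submodule.starProjection_add_starProjection_orthogonal (K := V) x).symm
  have hy : y = V.starProjection y + Vᗮ.starProjection y :=
    (Submodule.starProjection_add_starProjection_orthogonal (K := V) y).symm
  have h1 : inner ℝ (V.starProjection x) (Vᗮ.starProjection y) = (0 : ℝ) :=
    Submodule.inner_right_of_mem_orthogonal (Submodule.starProjection_apply_mem _ _)
      (Submodule.starProjection_apply_mem _ _)
  have h2 : inner ℝ (Vᗮ.starProjection x) (V.starProjection y) = (0 : ℝ) :=
    Submodule.inner_left_of_mem_orthogonal (Submodule.starProjection_apply_mem _ _)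
      (Submodule.starProjection_apply_mem _ _)
  conv_lhs => rw [hx, hy]
  rw [inner_add_left, inner_add_right, inner_add_right, h1, h2]
  ring

lemma norm_split (V : Submodule ℝ (EuclideanSpace ℝ (Fin n))) (x : EuclideanSpace ℝ (Fin n)) :
    ‖x‖ ^ 2 = ‖V.starProjection x‖ ^ 2 + ‖Vᗮ.starProjection x‖ ^ 2 := by
  have h := inner_split V x x
  rw [real_inner_self_eq_norm_sq, real_inner_self_eq_norm_sq, real_inner_self_eq_norm_sq] at h
  exact h

/-- points with small projection to `V` -/
theorem card_small {s b : ℝ} (h0 : 0 ≤ s) (hb0 : 0 ≤ b) (hb : s + 2 * b < 1)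
    {C : Finset (EuclideanSpace ℝ (Fin n))} (hC : IsCode n s C)
    (V : Submodule ℝ (EuclideanSpace ℝ (Fin n))) (D : Finset (EuclideanSpace ℝ (Fin n))) (hD : D ⊆ C)
    (hDb : ∀ x ∈ D, ‖V.starProjection x‖ ^ 2 ≤ b) :
    D.card ≤ A (n - Module.finrank ℝ V) ((s + b) / (1 - b)) := by
  have hb1 : 0 < 1 - b := by linarith
  have hn : ∀ x ∈ D, 1 - b ≤ ‖Vᗮ.starProjection x‖ ^ 2 := by
    intro x hx
    have h1 := norm_split V x
    rw [hC.1 x (hD hx)] at h1
    have := hDb x hx
    linarith
  apply card_of_proj (div_nonneg (by linarith) hb1.le) (by rw [div_lt_one hb1]; linarith) V D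
  · intro x hx h
    have := hn x hx
    rw [h, norm_zero] at this
    norm_num at this
    linarith
  · intro x hx y hy hxy
    have h1 := inner_split V x y
    have h2 := hC.2 x (hD hx) y (hD hy) hxy
    have h3 : -b ≤ inner ℝ (V.starProjection x) (V.starProjection y) := by
      have h4 := abs_real_inner_le_norm (V.starProjection x) (V.starProjection y)
      have h5 := neg_abs_le (inner ℝ (V.starProjection x) (V.starProjection y))
      have h6 := hDb x hx
      have h7 := hDb y hy
      nlinarith [sq_nonneg (‖V.starProjection x‖ - ‖V.starProjection y‖)]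
    have h8 : 1 - b ≤ ‖Vᗮ.starProjection x‖ * ‖Vᗮ.starProjection y‖ := by
      have h9 := hn x hx
      have h10 := hn y hy
      have h11 : (1 - b) ^ 2 ≤ (‖Vᗮ.starProjection x‖ * ‖Vᗮ.starProjection y‖) ^ 2 := by
        rw [mul_pow, sq (1 - b)]
        exact mul_le_mul h9 h10 hb1.le (sq_nonneg _)
      exact le_of_sq_le_sq h11 (by positivity)
    have h12 : inner ℝ (Vᗮ.starProjection x) (Vᗮ.starProjection y) ≤ s + b := by linarith
    refine h12.trans ?_
    rw [div_mul_eq_mul_div, le_div_iff₀ hb1]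
    exact mul_le_mul_of_nonneg_left h8 (by linarith)

end Pool.Agent.E8helper70.Sph
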