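import Pool.Agent.E8helper70.Sph.Ineq

/-!
# The exponential rates of spherical codes
-/

set_option autoImplicit false

open Finset Filter Topology

namespace Pool.Agent.E8helper70.Sph

/-- `limsup (1 / n) log_2 A(n, s)` -/
noncomputable def Rsup (s : ℝ) : ℝ := limsup (fun n : ℕ => Real.logb 2 (A n s) / n) atTop

/-- `liminf (1 / n) log_2 A(n, s)` -/
noncomputable def Rinf (s : ℝ) : ℝ := liminf (fun n : ℕ => Real.logb 2 (A n s) / n) atTop

section basic
variable {s : ℝ} (h0 : 0 ≤ s) (h1 : s < 1)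
include h0 h1

lemma r_nonneg (n : ℕ) : 0 ≤ Real.logb 2 (A n s) / n := by
  rcases Nat.eq_zero_or_pos n with h | h
  · subst h; simp
  · exact div_nonneg (Real.logb_nonneg (by norm_num) (by exact_mod_cast A_pos h h0 h1)) (Nat.cast_nonneg n)

lemma r_le (n : ℕ) : Real.logb 2 (A n s) / n ≤ Real.logb 2 (Kb s) := by
  rcases Nat.eq_zero_or_pos n with h | h
  · subst h
    simp only [Nat.cast_zero, div_zero]
    exact Real.logb_nonneg (by norm_num) (one_le_Kb h1)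
  · have hn : (0 : ℝ) < n := by exact_mod_cast h
    rw [div_le_iff₀ hn]
    have h2 : (0 : ℝ) < A n s := by exact_mod_cast A_pos h h0 h1
    calc Real.logb 2 (A n s) ≤ Real.logb 2 (Kb s ^ n) :=
          Real.logb_le_logb_of_le (by norm_num) h2 (A_le_pow n h0 h1)
      _ = Real.logb 2 (Kb s) * n := by rw [Real.logb_pow]; ring

lemma bddA : IsBoundedUnder (· ≤ ·) atTop (fun n : ℕ => Real.logb 2 (A n s) / n) :=
  isBoundedUnder_of ⟨_, r_le h0 h1⟩

lemma bddB : IsBoundedUnder (· ≥ ·) atTop (fun n : ℕ => Real.logb 2 (A n s) / n) :=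
  isBoundedUnder_of ⟨_, r_nonneg h0 h1⟩

lemma r_lt_iff {n : ℕ} (hn : 0 < n) {c : ℝ} : Real.logb 2 (A n s) / n < c ↔ (A n s : ℝ) < 2 ^ (c * n) := by
  have hn' : (0 : ℝ) < n := by exact_mod_cast hn
  have h2 : (0 : ℝ) < A n s := by exact_mod_cast A_pos hn h0 h1
  rw [div_lt_iff₀ hn', Real.logb_lt_iff_lt_rpow (by norm_num) h2]

lemma ev_le {η : ℝ} (hη : 0 < η) : ∀ᶠ n : ℕ in atTop, (A n s : ℝ) ≤ 2 ^ ((Rsup s + η) * n) := by
  have h := eventually_lt_of_limsup_lt (show limsup (fun n : ℕ => Real.logb 2 (A n s) / n) atTop < Rsup s + η by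
    unfold Rsup; linarith) (bddA h0 h1)
  filter_upwards [h, eventually_gt_atTop 0] with n hn hn0
  exact ((r_lt_iff h0 h1 hn0).1 hn).le

lemma fr_le {η : ℝ} (hη : 0 < η) : ∃ᶠ n : ℕ in atTop, (A n s : ℝ) ≤ 2 ^ ((Rinf s + η) * n) := by
  have h := frequently_lt_of_liminf_lt (bddA h0 h1).isCoboundedUnder_ge
    (show liminf (fun n : ℕ => Real.logb 2 (A n s) / n) atTop < Rinf s + η by unfold Rinf; linarith)
  refine (h.and_eventually (eventually_gt_atTop 0)).mono ?_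
  rintro n ⟨hn, hn0⟩
  exact ((r_lt_iff h0 h1 hn0).1 hn).le

lemma fr_ge {η : ℝ} (hη : 0 < η) : ∃ᶠ n : ℕ in atTop, (2 : ℝ) ^ ((Rsup s - η) * n) ≤ A n s := by
  have h := frequently_lt_of_lt_limsup (bddB h0 h1).isCoboundedUnder_le
    (show Rsup s - η < limsup (fun n : ℕ => Real.logb 2 (A n s) / n) atTop by unfold Rsup; linarith)
  refine (h.and_eventually (eventually_gt_atTop 0)).mono ?_
  rintro n ⟨hn, hn0⟩
  by_contra hcon
  exact absurd hn (not_lt.2 ((r_lt_iff h0 h1 hn0).2 (not_le.1 hcon)).le)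

lemma Rsup_le {β : ℝ} (h : ∀ η : ℝ, 0 < η → ∀ᶠ n : ℕ in atTop, (A n s : ℝ) ≤ 2 ^ ((β + η) * n)) :
    Rsup s ≤ β := by
  by_contra hcon
  rw [not_le] at hcon
  obtain ⟨η, hη⟩ : ∃ η, η = (Rsup s - β) / 3 := ⟨_, rfl⟩
  have hη0 : 0 < η := by rw [hη]; linarith
  obtain ⟨n, hn, hn2, hn0⟩ := ((fr_ge h0 h1 hη0).and_eventually ((h η hη0).and (eventually_gt_atTop 0))).exists
  have hn' : (0 : ℝ) < n := by exact_mod_cast hn0
  have h2 : (2 : ℝ) ^ ((Rsup s - η) * n) ≤ 2 ^ ((β + η) * n) := hn.trans hn2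
  rw [Real.rpow_le_rpow_left_iff (by norm_num)] at h2
  have h3 := le_of_mul_le_mul_right h2 hn'
  linarith

lemma ev_ge {η : ℝ} (hη : 0 < η) : ∀ᶠ n : ℕ in atTop, (2 : ℝ) ^ ((Rinf s - η) * n) ≤ A n s := by
  have h := eventually_lt_of_lt_liminf (show Rinf s - η < liminf (fun n : ℕ => Real.logb 2 (A n s) / n) atTop by
    unfold Rinf; linarith) (bddB h0 h1)
  filter_upwards [h, eventually_gt_atTop 0] with n hn hn0
  by_contra hcon
  exact absurd hn (not_lt.2 ((r_lt_iff h0 h1 hn0).2 (not_le.1 hcon)).le)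

lemma Rinf_le {β : ℝ} (h : ∀ η : ℝ, 0 < η → ∃ᶠ n : ℕ in atTop, (A n s : ℝ) ≤ 2 ^ ((β + η) * n)) :
    Rinf s ≤ β := by
  by_contra hcon
  rw [not_le] at hcon
  obtain ⟨η, hη⟩ : ∃ η, η = (Rinf s - β) / 3 := ⟨_, rfl⟩
  have hη0 : 0 < η := by rw [hη]; linarith
  obtain ⟨n, hn2, hn, hn0⟩ := ((h η hη0).and_eventually ((ev_ge h0 h1 hη0).and (eventually_gt_atTop 0))).exists
  have hn' : (0 : ℝ) < n := by exact_mod_cast hn0
  have h2 : (2 : ℝ) ^ ((Rinf s - η) * n) ≤ 2 ^ ((β + η) * n) := hn.trans hn2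
  rw [Real.rpow_le_rpow_left_iff (by norm_num)] at h2
  have h3 := le_of_mul_le_mul_right h2 hn'
  linarith

lemma Rinf_le_Rsup : Rinf s ≤ Rsup s := liminf_le_limsup (bddA h0 h1) (bddB h0 h1)

lemma Rinf_nonneg : 0 ≤ Rinf s := by
  unfold Rinf
  exact le_liminf_of_le (bddA h0 h1).isCoboundedUnder_ge (Eventually.of_forall (r_nonneg h0 h1))

lemma Rsup_le_log : Rsup s ≤ Real.logb 2 (Kb s) := by
  unfold Rsup
  exact limsup_le_of_le (bddB h0 h1).isCoboundedUnder_le (Eventually.of_forall (r_le h0 h1))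

end basic

lemma Rinf_pos {s : ℝ} (h0 : 0 < s) (h1 : s < 1) : 0 < Rinf s := by
  obtain ⟨g, hg, h⟩ := exists_growth h0 h1
  have h2 : 0 < Real.logb 2 g := Real.logb_pos (by norm_num) hg
  refine lt_of_lt_of_le h2 ?_
  unfold Rinf
  apply le_liminf_of_le (bddA h0.le h1).isCoboundedUnder_ge
  filter_upwards [eventually_gt_atTop 0] with n hn
  have hn' : (0 : ℝ) < n := by exact_mod_cast hn
  rw [le_div_iff₀ hn', mul_comm, ← Real.logb_pow]
  exact Real.logb_le_logb_of_le (by norm_num) (by positivity) (h n hn)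

lemma mono_weak {s t : ℝ} (h0 : 0 ≤ s) (h : s ≤ t) (h1 : t < 1) : Rsup s ≤ Rsup t ∧ Rinf s ≤ Rinf t := by
  have hs1 : s < 1 := h.trans_lt h1
  have ht0 : 0 ≤ t := h0.trans h
  constructor
  · apply Rsup_le h0 hs1
    intro η hη
    filter_upwards [ev_le ht0 h1 hη] with n hn
    refine le_trans ?_ hn
    exact_mod_cast A_mono_s n h0 h h1
  · apply Rinf_le h0 hs1
    intro η hη
    refine (fr_le ht0 h1 hη).mono ?_
    intro n hn
    refine le_trans ?_ hn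
    exact_mod_cast A_mono_s n h0 h h1

/-- `n - ⌊ε n⌋` takes all values -/
lemma surj_floor {ε : ℝ} (hε0 : 0 ≤ ε) (hε : ε < 1) (m : ℕ) : ∃ n : ℕ, m ≤ n ∧ n - ⌊ε * n⌋₊ = m := by
  have hle : ∀ n : ℕ, ⌊ε * n⌋₊ ≤ n := by
    intro n
    have : ε * n ≤ n := by
      have : (0 : ℝ) ≤ n := Nat.cast_nonneg n
      nlinarith
    exact_mod_cast (Nat.floor_le (by positivity)).trans this
  have hstep : ∀ n : ℕ, (n + 1) - ⌊ε * ((n + 1 : ℕ) : ℝ)⌋₊ ≤ (n - ⌊ε * n⌋₊) + 1 := by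
    intro n
    have : ⌊ε * n⌋₊ ≤ ⌊ε * ((n + 1 : ℕ) : ℝ)⌋₊ := by
      apply Nat.floor_le_floor
      push_cast
      nlinarith
    have := hle n
    omega
  have hlarge : ∃ n : ℕ, m ≤ n - ⌊ε * n⌋₊ := by
    obtain ⟨n, hn⟩ := exists_nat_ge ((m : ℝ) / (1 - ε))
    refine ⟨n, ?_⟩
    have h1 : (0 : ℝ) < 1 - ε := by linarith
    rw [div_le_iff₀ h1] at hn
    have h2 : (⌊ε * n⌋₊ : ℝ) ≤ ε * n := Nat.floor_le (by positivity)
    have h3 : ((m + ⌊ε * n⌋₊ : ℕ) : ℝ) ≤ n := by push_cast; linarith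
    have h4 : m + ⌊ε * n⌋₊ ≤ n := by exact_mod_cast h3
    omega
  classical
  have hfind := Nat.find_spec hlarge
  set n := Nat.find hlarge with hn
  refine ⟨n, by omega, ?_⟩
  rcases Nat.eq_zero_or_pos n with h0 | h0
  · rw [h0] at hfind ⊢
    simp at hfind ⊢
    omega
  · have hmin := Nat.find_min hlarge (show n - 1 < Nat.find hlarge by omega)
    have h1 := hstep (n - 1)
    rw [show n - 1 + 1 = n by omega] at h1
    omega

/-- the key step for the monotonicity -/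
lemma step_mono {s t ε : ℝ} (h0 : 0 ≤ s) (hε0 : 0 < ε) (hε1 : s + 2 * ε < 1) (h : (s + ε) / (1 - ε) < t) (h1 : t < 1) :
    Rsup s ≤ (1 - ε) * Rsup t ∧ Rinf s ≤ (1 - ε) * Rinf t := by
  have hs1 : s < 1 := by linarith
  have hε1' : ε < 1 := by linarith
  have ht0 : 0 ≤ t := le_trans (div_nonneg (by linarith) (by linarith)) h.le
  -- choice of lam
  obtain ⟨lam, hl1, hl2, hl3⟩ : ∃ lam : ℝ, 1 < lam ∧ s + 2 * (lam * ε) < 1 ∧ (s + lam * ε) / (1 - lam * ε) ≤ t := by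
    have hc : ContinuousAt (fun lam : ℝ => (s + lam * ε) / (1 - lam * ε)) 1 := by
      apply ContinuousAt.div
      · fun_prop
      · fun_prop
      · rw [one_mul]; linarith
    have e1 : ∀ᶠ lam in 𝓝 (1 : ℝ), (s + lam * ε) / (1 - lam * ε) < t :=
      hc.eventually_lt_const (by simpa using h)
    have hc2 : ContinuousAt (fun lam : ℝ => s + 2 * (lam * ε)) 1 := by fun_prop
    have e2 : ∀ᶠ lam in 𝓝 (1 : ℝ), s + 2 * (lam * ε) < 1 := hc2.eventually_lt_const (by simpa using hε1)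
    have e3 : ∀ᶠ lam in 𝓝[>] (1 : ℝ), 1 < lam := eventually_mem_nhdsWithin
    obtain ⟨lam, h4, h5, h6⟩ := ((e1.filter_mono nhdsWithin_le_nhds).and
      ((e2.filter_mono nhdsWithin_le_nhds).and e3)).exists
    exact ⟨lam, h6, h5, h4.le⟩
  -- the inequality for all n
  have hineq : ∀ n : ℕ, 0 < n → (1 - 1 / lam) * A n s ≤ A (n - ⌊ε * n⌋₊) t := by
    intro n hn
    have hn0 : (0 : ℝ) < n := by exact_mod_cast hn
    have hk : (⌊ε * n⌋₊ : ℝ) ≤ ε * n := Nat.floor_le (by positivity)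
    have hkn : ⌊ε * n⌋₊ ≤ n := by
      have : ε * n ≤ n := by nlinarith
      exact_mod_cast hk.trans this
    have hb : lam * ⌊ε * n⌋₊ / n ≤ lam * ε := by
      rw [div_le_iff₀ hn0]
      nlinarith
    have hb0 : 0 ≤ lam * ⌊ε * n⌋₊ / n := by positivity
    have hlε : lam * ε < 1 := by nlinarith
    have hb' : s + 2 * (lam * ⌊ε * n⌋₊ / n) < 1 := by nlinarith
    refine (punct hkn hn hl1 h0 hb').trans ?_
    have h2 : (s + lam * ⌊ε * n⌋₊ / n) / (1 - lam * ⌊ε * n⌋₊ / n) ≤ t := by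
      refine le_trans ?_ hl3
      apply div_le_div₀ (by nlinarith) (by linarith) (by linarith) (by linarith)
    exact_mod_cast A_mono_s _ (div_nonneg (by linarith) (by linarith)) h2 h1
  have hC : 0 < 1 - 1 / lam := by
    rw [sub_pos, div_lt_one (by linarith)]
    exact hl1
  -- from `n - k` to `n`
  have hfin : ∀ R η : ℝ, 0 ≤ R → 0 < η → ∀ᶠ n : ℕ in atTop,
      (A (n - ⌊ε * n⌋₊) t : ℝ) ≤ 2 ^ ((R + η) * ((n - ⌊ε * n⌋₊ : ℕ) : ℝ)) →
      (A n s : ℝ) ≤ 2 ^ (((1 - ε) * R + 3 * η) * n) := by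
    intro R η hR hη
    have hlim : Tendsto (fun n : ℕ => (R + η + Real.logb 2 (1 / (1 - 1 / lam))) / (n : ℝ)) atTop (𝓝 0) :=
      tendsto_const_div_atTop_nhds_zero_nat _
    filter_upwards [hlim.eventually (gt_mem_nhds hη), eventually_gt_atTop 0] with n hn hn0 hA
    have hn' : (0 : ℝ) < n := by exact_mod_cast hn0
    rw [div_lt_iff₀ hn'] at hn
    have hk1 : ε * n - 1 < ⌊ε * n⌋₊ := Nat.sub_one_lt_floor _
    have hkn : ⌊ε * n⌋₊ ≤ n := by
      have h4 : (⌊ε * n⌋₊ : ℝ) ≤ ε * n := Nat.floor_le (by positivity)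
      have : ε * n ≤ n := by nlinarith
      exact_mod_cast h4.trans this
    have hcast : ((n - ⌊ε * n⌋₊ : ℕ) : ℝ) = (n : ℝ) - ⌊ε * n⌋₊ := Nat.cast_sub hkn
    have h5 := (hineq n hn0).trans hA
    rw [hcast] at h5
    have h6 : (A n s : ℝ) ≤ (1 / (1 - 1 / lam)) * 2 ^ ((R + η) * ((n : ℝ) - ⌊ε * n⌋₊)) := by
      rw [one_div_mul_eq_div, le_div_iff₀ hC, mul_comm]
      exact h5
    refine h6.trans ?_
    have h7 : 1 / (1 - 1 / lam) = (2 : ℝ) ^ Real.logb 2 (1 / (1 - 1 / lam)) :=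
      (Real.rpow_logb (by norm_num) (by norm_num) (by positivity)).symm
    conv_lhs => rw [h7]
    rw [← Real.rpow_add (by norm_num)]
    apply Real.rpow_le_rpow_of_exponent_le (by norm_num)
    have h8 : (R + η) * ((n : ℝ) - ⌊ε * n⌋₊) ≤ (R + η) * ((1 - ε) * n + 1) :=
      mul_le_mul_of_nonneg_left (by linarith) (by linarith)
    have h9 : 0 ≤ ε * η * n := by positivity
    nlinarith
  constructor
  · apply Rsup_le h0 hs1
    intro η hη
    have hη3 : 0 < η / 3 := by positivity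
    have ht : Tendsto (fun n : ℕ => n - ⌊ε * n⌋₊) atTop atTop := by
      rw [tendsto_atTop]
      intro m
      obtain ⟨N, hN⟩ := exists_nat_ge ((m : ℝ) / (1 - ε))
      filter_upwards [eventually_ge_atTop N] with n hn
      have h1' : (0 : ℝ) < 1 - ε := by linarith
      have hn' : (N : ℝ) ≤ n := by exact_mod_cast hn
      have hN' : (m : ℝ) / (1 - ε) ≤ n := hN.trans hn'
      rw [div_le_iff₀ h1'] at hN'
      have h2 : (⌊ε * n⌋₊ : ℝ) ≤ ε * n := Nat.floor_le (by positivity)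
      have h3 : ((m + ⌊ε * n⌋₊ : ℕ) : ℝ) ≤ n := by push_cast; linarith
      have h4 : m + ⌊ε * n⌋₊ ≤ n := by exact_mod_cast h3
      omega
    filter_upwards [ht.eventually (ev_le ht0 h1 hη3),
      hfin (Rsup t) (η / 3) ((Rinf_nonneg ht0 h1).trans (Rinf_le_Rsup ht0 h1)) hη3] with n hn hn2
    have := hn2 hn
    rwa [show 3 * (η / 3) = η by ring] at this
  · apply Rinf_le h0 hs1
    intro η hη
    have hη3 : 0 < η / 3 := by positivity
    obtain ⟨N, hN⟩ := eventually_atTop.1 (hfin (Rinf t) (η / 3) (Rinf_nonneg ht0 h1) hη3)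
    rw [frequently_atTop]
    intro M
    obtain ⟨m, hm, hm2⟩ := (frequently_atTop.1 (fr_le ht0 h1 hη3)) (max M N)
    obtain ⟨n, hn, hnm⟩ := surj_floor hε0.le hε1' m
    refine ⟨n, le_trans (le_trans (le_max_left _ _) hm) hn, ?_⟩
    have := hN n (le_trans (le_trans (le_max_right _ _) hm) hn) (by rw [hnm]; exact hm2)
    rwa [show 3 * (η / 3) = η by ring] at this

/-- **the rates divided by `1 + s` are monotone** -/
theorem ratio_mono {s t : ℝ} (h0 : 0 ≤ s) (h : s ≤ t) (h1 : t < 1) :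
    Rsup s / (1 + s) ≤ Rsup t / (1 + t) ∧ Rinf s / (1 + s) ≤ Rinf t / (1 + t) := by
  rcases eq_or_lt_of_le h with rfl | hlt
  · exact ⟨le_rfl, le_rfl⟩
  have hs : 0 < 1 + s := by linarith
  have ht : 0 < 1 + t := by linarith
  have ht0 : 0 ≤ t := by linarith
  have hε0 : 0 < (t - s) / (1 + t) := by
    apply div_pos (by linarith) ht
  have key : ∀ ε : ℝ, 0 < ε → ε < (t - s) / (1 + t) → Rsup s ≤ (1 - ε) * Rsup t ∧ Rinf s ≤ (1 - ε) * Rinf t := by
    intro ε hε hlt2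
    rw [lt_div_iff₀ ht] at hlt2
    have h3 : ε < 1 := by nlinarith
    apply step_mono h0 hε _ _ h1
    · nlinarith
    · rw [div_lt_iff₀ (by linarith)]
      nlinarith
  have hlim : ∀ a b : ℝ, (∀ ε : ℝ, 0 < ε → ε < (t - s) / (1 + t) → a ≤ (1 - ε) * b) → a / (1 + s) ≤ b / (1 + t) := by
    intro a b hab
    have h2 : a ≤ (1 - (t - s) / (1 + t)) * b := by
      have hc : Tendsto (fun ε : ℝ => (1 - ε) * b) (𝓝[<] ((t - s) / (1 + t))) (𝓝 ((1 - (t - s) / (1 + t)) * b)) := by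
        apply Tendsto.mono_left _ nhdsWithin_le_nhds
        apply Continuous.tendsto
        fun_prop
      apply ge_of_tendsto hc
      filter_upwards [Ioo_mem_nhdsLT hε0] with ε hε
      exact hab ε hε.1 hε.2
    rw [div_le_div_iff₀ hs ht]
    have h3 : (1 - (t - s) / (1 + t)) * b * (1 + t) = b * (1 + s) := by field_simp; ring
    nlinarith
  exact ⟨hlim _ _ (fun ε h2 h3 => (key ε h2 h3).1), hlim _ _ (fun ε h2 h3 => (key ε h2 h3).2)⟩

theorem strict {s t : ℝ} (h0 : 0 ≤ s) (h : s < t) (h1 : t < 1) : Rsup s < Rsup t ∧ Rinf s < Rinf t := by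
  obtain ⟨h2, h3⟩ := ratio_mono h0 h.le h1
  have ht0 : 0 < t := by linarith
  have h4 := Rinf_pos ht0 h1
  have h5 := Rinf_le_Rsup ht0.le h1
  rw [div_le_div_iff₀ (by linarith) (by linarith)] at h2 h3
  constructor <;> nlinarith

end Pool.Agent.E8helper70.Sph
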