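import Pool.Agent.E8helper70.Sph.Iso

/-!
# Structure of the codes of nearly maximal exponential size: final form
-/

set_option autoImplicit false

open Finset Filter Topology

namespace Pool.Agent.E8helper70.Sph

open Classical in
/-- all the properties of codes of nearly maximal size with the same constants -/
theorem struct {s ε δ : ℝ} (h0 : 0 < s) (h1 : s < 1) (hε0 : 0 < ε) (hε1 : ε < 1) (hδ : 0 < δ) :
    ∃ ρ κ η : ℝ, 0 < ρ ∧ 0 < κ ∧ 0 < η ∧ ∃ n₀ : ℕ, ∀ n : ℕ, n₀ ≤ n →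
      ∀ C : Finset (EuclideanSpace ℝ (Fin n)), IsCode n s C → (2 : ℝ) ^ ((Rsup s - η) * n) ≤ C.card →
      (∀ V : Submodule ℝ (EuclideanSpace ℝ (Fin n)), ε * n ≤ Module.finrank ℝ V →
        ((C.filter (fun x => ‖V.starProjection x‖ ^ 2 ≤ ρ)).card : ℝ) ≤ 2 ^ (-η * n) * C.card) ∧
      (∀ V : Submodule ℝ (EuclideanSpace ℝ (Fin n)), Module.finrank ℝ V ≤ (1 - ε) * n →
        ((C.filter (fun x => 1 - ρ ≤ ‖V.starProjection x‖ ^ 2)).card : ℝ) ≤ 2 ^ (-η * n) * C.card) ∧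
      (∀ V : Submodule ℝ (EuclideanSpace ℝ (Fin n)), Module.finrank ℝ V ≤ κ * n →
        ((C.filter (fun x => δ ≤ ‖V.starProjection x‖ ^ 2)).card : ℝ) ≤ 2 ^ (-η * n) * C.card) ∧
      (∀ y : EuclideanSpace ℝ (Fin n), ‖y‖ = 1 →
        ((C.filter (fun x => δ ≤ |inner ℝ x y|)).card : ℝ) ≤ 2 ^ (-η * n) * C.card) ∧
      (((C ×ˢ C).filter (fun p => δ ≤ |inner ℝ p.1 p.2|)).card : ℝ) ≤ 2 ^ (-η * n) * C.card ^ 2 := by
  obtain ⟨ρ, η₁, hρ, hη₁, N₁, H₁⟩ := far h0 h1 hε0 hε1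
  obtain ⟨κ, η₂, hκ, hη₂, N₂, H₂⟩ := near h0 h1 hδ
  obtain ⟨κ₃, η₃, hκ₃, hη₃, N₃, H₃⟩ := near h0 h1 (show 0 < δ ^ 2 by positivity)
  obtain ⟨N₄, hN₄⟩ := exists_nat_ge (1 / κ₃)
  obtain ⟨η, hη⟩ : ∃ η, η = min η₁ (min η₂ η₃) := ⟨_, rfl⟩
  have e1 : η ≤ η₁ := by rw [hη]; exact min_le_left _ _
  have e2 : η ≤ η₂ := by rw [hη]; exact (min_le_right _ _).trans (min_le_left _ _)
  have e3 : η ≤ η₃ := by rw [hη]; exact (min_le_right _ _).trans (min_le_right _ _)
  have hη0 : 0 < η := by rw [hη]; exact lt_min hη₁ (lt_min hη₂ hη₃)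
  refine ⟨ρ, κ, η, hρ, hκ, hη0, max (max N₁ N₂) (max N₃ (max N₄ 1)), ?_⟩
  intro n hn C hC hcard
  have n1 : N₁ ≤ n := (le_max_left _ _).trans ((le_max_left _ _).trans hn)
  have n2 : N₂ ≤ n := (le_max_right _ _).trans ((le_max_left _ _).trans hn)
  have n3 : N₃ ≤ n := (le_max_left _ _).trans ((le_max_right _ _).trans hn)
  have n4 : N₄ ≤ n := (le_max_left _ _).trans ((le_max_right _ _).trans ((le_max_right _ _).trans hn))
  have n5 : 1 ≤ n := (le_max_right _ _).trans ((le_max_right _ _).trans ((le_max_right _ _).trans hn))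
  have hn0 : (0 : ℝ) ≤ n := Nat.cast_nonneg n
  have hc : ∀ η', η ≤ η' → (2 : ℝ) ^ ((Rsup s - η') * n) ≤ C.card := by
    intro η' h
    refine le_trans ?_ hcard
    apply Real.rpow_le_rpow_of_exponent_le (by norm_num)
    apply mul_le_mul_of_nonneg_right _ hn0
    linarith
  have hd : ∀ η', η ≤ η' → (2 : ℝ) ^ (-η' * n) * C.card ≤ 2 ^ (-η * n) * C.card := by
    intro η' h
    apply mul_le_mul_of_nonneg_right _ (Nat.cast_nonneg _)
    apply Real.rpow_le_rpow_of_exponent_le (by norm_num)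
    apply mul_le_mul_of_nonneg_right _ hn0
    linarith
  have cap : ∀ y : EuclideanSpace ℝ (Fin n), ‖y‖ = 1 →
        ((C.filter (fun x => δ ≤ |inner ℝ x y|)).card : ℝ) ≤ 2 ^ (-η * n) * C.card := by
    intro y hy
    have hy0 : y ≠ 0 := by
      intro h
      rw [h, norm_zero] at hy
      exact zero_ne_one hy
    have hV : (Module.finrank ℝ (ℝ ∙ y) : ℝ) ≤ κ₃ * n := by
      rw [finrank_span_singleton hy0, Nat.cast_one]
      have h4 : (1 : ℝ) / κ₃ ≤ n := hN₄.trans (by exact_mod_cast n4)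
      rw [div_le_iff₀ hκ₃] at h4
      linarith
    refine le_trans ?_ ((H₃ n n3 C hC (hc _ e3) (ℝ ∙ y) hV).trans (hd _ e3))
    have hsub : C.filter (fun x => δ ≤ |inner ℝ x y|) ⊆
        C.filter (fun x => δ ^ 2 ≤ ‖(ℝ ∙ y).starProjection x‖ ^ 2) := by
      intro x hx
      rw [mem_filter] at hx ⊢
      refine ⟨hx.1, ?_⟩
      rw [Submodule.starProjection_unit_singleton ℝ hy, norm_smul, hy, mul_one, Real.norm_eq_abs,
        real_inner_comm]
      exact pow_le_pow_left₀ hδ.le hx.2 2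
    exact_mod_cast card_le_card hsub
  refine ⟨?_, ?_, ?_, cap, ?_⟩
  · intro V hV
    exact (H₁ n n1 C hC (hc _ e1) V hV).trans (hd _ e1)
  · intro V hV
    have hfr : (Module.finrank ℝ V : ℝ) + Module.finrank ℝ Vᗮ = n := by
      have h := V.finrank_add_finrank_orthogonal
      rw [finrank_euclideanSpace_fin] at h
      exact_mod_cast h
    refine le_trans ?_ ((H₁ n n1 C hC (hc _ e1) Vᗮ (by linarith)).trans (hd _ e1))
    have hsub : C.filter (fun x => 1 - ρ ≤ ‖V.starProjection x‖ ^ 2) ⊆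
        C.filter (fun x => ‖Vᗮ.starProjection x‖ ^ 2 ≤ ρ) := by
      intro x hx
      rw [mem_filter] at hx ⊢
      refine ⟨hx.1, ?_⟩
      have h2 := norm_split V x
      rw [hC.1 x hx.1] at h2
      linarith [hx.2]
    exact_mod_cast card_le_card hsub
  · intro V hV
    exact (H₂ n n2 C hC (hc _ e2) V hV).trans (hd _ e2)
  · have hsum : ((C ×ˢ C).filter (fun p => δ ≤ |inner ℝ p.1 p.2|)).card =
        ∑ y ∈ C, (C.filter (fun x => δ ≤ |inner ℝ x y|)).card := by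
      rw [card_filter, sum_product_right]
      apply sum_congr rfl
      intro y _
      rw [card_filter]
    rw [hsum]
    push_cast
    calc ∑ y ∈ C, ((C.filter (fun x => δ ≤ |inner ℝ x y|)).card : ℝ)
        ≤ ∑ y ∈ C, (2 : ℝ) ^ (-η * n) * C.card := sum_le_sum (fun y hy => cap y (hC.1 y hy))
      _ = 2 ^ (-η * n) * C.card ^ 2 := by
          rw [sum_const, nsmul_eq_mul]
          ring

/-- codes of nearly maximal size exist in infinitely many dimensions -/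
theorem exists_near {s η : ℝ} (h0 : 0 ≤ s) (h1 : s < 1) (hη : 0 < η) (N : ℕ) :
    ∃ n : ℕ, N ≤ n ∧ ∃ C : Finset (EuclideanSpace ℝ (Fin n)), IsCode n s C ∧
      (2 : ℝ) ^ ((Rsup s - η) * n) ≤ C.card := by
  obtain ⟨n, hn, h⟩ := frequently_atTop.1 (fr_ge h0 h1 hη) N
  obtain ⟨C, hC, hcard⟩ := exists_max n h0 h1
  exact ⟨n, hn, C, hC, by rw [hcard]; exact h⟩

end Pool.Agent.E8helper70.Sph
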